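import Mathlib

set_option autoImplicit false

namespace H282R3.MK

/-- letters -/
abbrev Al := Bool × Bool × Bool × Bool
/-- the coordinate alphabet -/
abbrev Rr := Bool × Al
/-- colours `(α, ε, s)` -/
abbrev Co := Al × Bool × Bool

/-- the quadratic form attached to a colour -/
def Qf (c : Co) (a : Al) : Bool :=
  (c.1.1 && a.1 && a.2.1) ^^ (c.1.2.1 && a.1 && a.2.2.1) ^^ (c.1.2.2.1 && a.1 && a.2.2.2) ^^
  (c.1.2.2.2 && a.2.1 && a.2.2.1) ^^ (c.2.1 && a.2.1 && a.2.2.2) ^^ (c.2.2 && a.2.2.1 && a.2.2.2)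

/-- the pairing -/
def Lf (a x : Al) : Bool :=
  (a.1 && x.1) ^^ (a.2.1 && x.2.1) ^^ (a.2.2.1 && x.2.2.1) ^^ (a.2.2.2 && x.2.2.2)

/-- componentwise xor of letters -/
def xA (a b : Al) : Al := (a.1 ^^ b.1, a.2.1 ^^ b.2.1, a.2.2.1 ^^ b.2.2.1, a.2.2.2 ^^ b.2.2.2)
/-- componentwise xor of colours -/
def xC (c d : Co) : Co := (xA c.1 d.1, c.2.1 ^^ d.2.1, c.2.2 ^^ d.2.2)

/-- integer sign -/
def sgz (b : Bool) : ℤ := if b then -1 else 1

lemma fourier_bound : ∀ d : Co, d ≠ ((false, false, false, false), false, false) → ∀ x : Al,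
    (∑ a : Al, sgz (Qf d a ^^ Lf a x)).natAbs ≤ 8 := by
  decide +kernel

lemma Lf_xor : ∀ x y a : Al, (Lf a x ^^ Lf a y) = Lf a (xA x y) := by
  decide +kernel

lemma Lf_orth : ∀ a b : Al, ∑ x : Al, sgz (Lf a x ^^ Lf b x) = if a = b then 16 else 0 := by
  decide +kernel

lemma Qf_xor (c d : Co) (a : Al) : (Qf c a ^^ Qf d a) = Qf (xC c d) a := by
  obtain ⟨⟨c1, c2, c3, c4⟩, c5, c6⟩ := c
  obtain ⟨⟨d1, d2, d3, d4⟩, d5, d6⟩ := d
  obtain ⟨a1, a2, a3, a4⟩ := a
  simp only [Qf, xC, xA]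
  cases a1 <;> cases a2 <;> cases a3 <;> cases a4 <;> simp <;>
    (try cases c2 <;> simp) <;> (try cases c3 <;> simp) <;>
    (try cases c4 <;> simp) <;> (try cases c5 <;> simp) <;> (try cases c6 <;> simp)

lemma xC_ne {c d : Co} (h : c ≠ d) : xC c d ≠ ((false, false, false, false), false, false) := by
  intro h0
  apply h
  obtain ⟨⟨c1, c2, c3, c4⟩, c5, c6⟩ := c
  obtain ⟨⟨d1, d2, d3, d4⟩, d5, d6⟩ := d
  simp only [xC, xA, Prod.mk.injEq, bne_eq_false_iff_eq] at h0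
  simp [h0]

/-- real sign -/
noncomputable def sg (b : Bool) : ℝ := if b then -1 else 1

lemma sg_eq (b : Bool) : sg b = ((sgz b : ℤ) : ℝ) := by cases b <;> simp [sg, sgz]
lemma sg_xor (a b : Bool) : sg (a ^^ b) = sg a * sg b := by cases a <;> cases b <;> simp [sg]
lemma sg_sq (a : Bool) : sg a * sg a = 1 := by cases a <;> simp [sg]
lemma abs_sg (a : Bool) : |sg a| = 1 := by cases a <;> simp [sg]
lemma sum_sg : ∑ b : Bool, sg b = 0 := by simp [sg]

/-- the basic functions -/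
noncomputable def th (c : Co) (a : Al) (r : Rr) : ℝ := sg (Qf c a ^^ Lf a r.2 ^^ r.1)

lemma abs_th (c : Co) (a : Al) (r : Rr) : |th c a r| = 1 := abs_sg _

lemma th_sum (c : Co) (a : Al) : ∑ r : Rr, th c a r = 0 := by
  rw [Fintype.sum_prod_type, Finset.sum_comm]
  apply Finset.sum_eq_zero
  intro x _
  simp only [th, sg_xor, ← Finset.mul_sum, sum_sg, mul_zero]

lemma th_orth (c : Co) (a b : Al) :
    ∑ r : Rr, th c a r * th c b r = if a = b then 32 else 0 := by
  have e : ∀ r : Rr, th c a r * th c b r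
      = (sg (Qf c a) * sg (Qf c b)) * sg (Lf a r.2 ^^ Lf b r.2) := by
    intro r
    simp only [th, sg_xor]
    have := sg_sq r.1
    linear_combination (sg (Qf c a) * sg (Qf c b) * sg (Lf a r.2) * sg (Lf b r.2)) * this
  simp_rw [e]
  rw [← Finset.mul_sum, Fintype.sum_prod_type]
  simp only [Finset.sum_const, Finset.card_univ, Fintype.card_bool]
  have h := congrArg (fun z : ℤ => (z : ℝ)) (Lf_orth a b)
  simp only [Int.cast_sum, ← sg_eq] at h
  rw [h]
  by_cases hab : a = b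
  · subst hab
    simp only [if_true, sg_sq]
    norm_num
  · simp [hab]

/-- the normalised kernel of one coordinate -/
noncomputable def Fk (c d : Co) (r t : Rr) : ℝ := (1 / 16) * ∑ a : Al, th c a r * th d a t

lemma Fk_symm (c d : Co) (r t : Rr) : Fk c d r t = Fk d c t r := by
  unfold Fk
  congr 1
  exact Finset.sum_congr rfl (fun a _ => mul_comm _ _)

lemma card_Al : (Finset.univ : Finset Al).card = 16 := by decide

lemma Fk_le_one (c d : Co) (r t : Rr) : |Fk c d r t| ≤ 1 := by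
  unfold Fk
  rw [abs_mul]
  have : |∑ a : Al, th c a r * th d a t| ≤ 16 := by
    refine (Finset.abs_sum_le_sum_abs _ _).trans ?_
    simp only [abs_mul, abs_th, mul_one, Finset.sum_const, card_Al]
    norm_num
  rw [abs_of_nonneg (by norm_num : (0:ℝ) ≤ 1 / 16)]
  linarith

lemma Fk_le_half {c d : Co} (h : c ≠ d) (r t : Rr) : |Fk c d r t| ≤ 1 / 2 := by
  unfold Fk
  rw [abs_mul]
  have e : ∀ a : Al, th c a r * th d a t
      = (sg r.1 * sg t.1) * ((sgz (Qf (xC c d) a ^^ Lf a (xA r.2 t.2)) : ℤ) : ℝ) := by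
    intro a
    rw [← sg_eq, ← Qf_xor, ← Lf_xor]
    simp only [th, sg_xor]
    ring
  have : |∑ a : Al, th c a r * th d a t| ≤ 8 := by
    simp_rw [e]
    rw [← Finset.mul_sum, abs_mul, abs_mul, abs_sg, abs_sg, one_mul, one_mul, ← Int.cast_sum]
    have := fourier_bound (xC c d) (xC_ne h) (xA r.2 t.2)
    rw [← Int.cast_abs]
    have h2 : |∑ a : Al, sgz (Qf (xC c d) a ^^ Lf a (xA r.2 t.2))| ≤ 8 := by
      rw [Int.abs_eq_natAbs]
      exact_mod_cast this
    exact_mod_cast h2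
  rw [abs_of_nonneg (by norm_num : (0:ℝ) ≤ 1 / 16)]
  linarith

end H282R3.MK
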