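import Mathlib
import Pool.Agent.H282R3.MK.Fin

set_option autoImplicit false
open MeasureTheory ProbabilityTheory Set Filter Topology
open scoped ENNReal

namespace H282R3.MK

instance sc_Rr : SecondCountableTopology Rr := inferInstance
instance bs_Rr : BorelSpace Rr := inferInstance
instance bs_Al : BorelSpace Al := inferInstance
instance bs_Co : BorelSpace Co := inferInstance
instance sc_Co : SecondCountableTopology Co := inferInstance
instance bs_seq : BorelSpace (ℕ → Rr) := Pi.borelSpace
instance bs_S : BorelSpace (Co × (ℕ → Rr)) := Prod.borelSpace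

/-- uniform probability on a finite type -/
noncomputable def unif (T : Type) [Fintype T] [MeasurableSpace T] : Measure T :=
  ((Fintype.card T : ℝ≥0∞)⁻¹) • Measure.count

instance unif_prob (T : Type) [Fintype T] [Nonempty T] [MeasurableSpace T]
    [MeasurableSingletonClass T] : IsProbabilityMeasure (unif T) := by
  constructor
  unfold unif
  rw [Measure.smul_apply, Measure.count_apply MeasurableSet.univ, smul_eq_mul]
  rw [Set.encard_univ]
  simp only [ENat.card_eq_coe_fintype_card, ENat.toENNReal_coe]
  exact ENNReal.inv_mul_cancel (by simp) (by simp)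

lemma integral_unif {T : Type} [Fintype T] [MeasurableSpace T]
    [MeasurableSingletonClass T] (f : T → ℝ) :
    ∫ x, f x ∂(unif T) = (Fintype.card T : ℝ)⁻¹ * ∑ x, f x := by
  unfold unif
  rw [integral_smul_measure, integral_count]
  simp

/-- product of uniform measures on sequences -/
noncomputable def nu : Measure (ℕ → Rr) := Measure.infinitePi (fun _ : ℕ => unif Rr)

instance : IsProbabilityMeasure nu := by unfold nu; infer_instance

lemma prodE (f : ℕ → Rr → ℝ) (N : ℕ) :
    ∫ ρ, ∏ j ∈ Finset.range N, f j (ρ j) ∂nu = ∏ j ∈ Finset.range N, ∫ r, f j r ∂(unif Rr) := by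
  unfold nu
  let g : ((i : Finset.range N) → Rr) → ℝ := fun v => ∏ j : Finset.range N, f j (v j)
  have e : ∀ ρ : ℕ → Rr, ∏ j ∈ Finset.range N, f j (ρ j) = g ((Finset.range N).restrict ρ) := by
    intro ρ
    simp only [g, Finset.restrict]
    rw [← Finset.prod_coe_sort]
  simp_rw [e]
  rw [integral_restrict_infinitePi (μ := fun _ : ℕ => unif Rr) (s := Finset.range N) (f := g)]
  · have := integral_fintype_prod_eq_prod (𝕜 := ℝ) (ι := Finset.range N)
      (fun j r => f (j : ℕ) r) (μ := fun _ => unif Rr)
    simp only [g]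
    rw [this, Finset.prod_coe_sort (Finset.range N) (fun j => ∫ r, f j r ∂(unif Rr))]
  · exact (measurable_of_finite g).aestronglyMeasurable

/-- linear combinations of the basic functions -/
noncomputable def lin (c : Co) (u : Al → ℝ) (r : Rr) : ℝ := ∑ a : Al, u a * th c a r

/-- scalar product of coefficient vectors -/
noncomputable def dot (u w : Al → ℝ) : ℝ := ∑ a : Al, u a * w a

lemma card_Rr : Fintype.card Rr = 32 := by decide

lemma lin_mean (c : Co) (u : Al → ℝ) : ∫ r, lin c u r ∂(unif Rr) = 0 := by
  rw [integral_unif]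
  simp only [lin]
  rw [Finset.sum_comm]
  simp [← Finset.mul_sum, th_sum]

lemma lin_orth (c : Co) (u w : Al → ℝ) :
    ∫ r, lin c u r * lin c w r ∂(unif Rr) = dot u w := by
  rw [integral_unif, card_Rr]
  simp only [lin, dot]
  have : ∀ r : Rr, (∑ a : Al, u a * th c a r) * (∑ b : Al, w b * th c b r)
      = ∑ a : Al, ∑ b : Al, (u a * w b) * (th c a r * th c b r) := by
    intro r
    rw [Finset.sum_mul_sum]
    refine Finset.sum_congr rfl fun a _ => Finset.sum_congr rfl fun b _ => by ring
  simp_rw [this]
  rw [Finset.sum_comm]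
  have : ∀ a : Al, ∑ r : Rr, ∑ b : Al, (u a * w b) * (th c a r * th c b r) = 32 * (u a * w a) := by
    intro a
    rw [Finset.sum_comm]
    simp_rw [← Finset.mul_sum, th_orth]
    simp
    ring
  simp_rw [this]
  rw [← Finset.mul_sum, ← mul_assoc]
  norm_num

/-- products of linear combinations -/
noncomputable def W (c : Co) (v : ℕ → Al → ℝ) (n : ℕ) (ρ : ℕ → Rr) : ℝ :=
  ∏ j ∈ Finset.range n, lin c (v j) (ρ j)

lemma W_orth_le (c : Co) (v w : ℕ → Al → ℝ) (n l : ℕ) (h : n ≤ l) :
    ∫ ρ, W c v n ρ * W c w l ρ ∂nu
      = if n = l then ∏ j ∈ Finset.range n, dot (v j) (w j) else 0 := by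
  have e : ∀ ρ : ℕ → Rr, W c v n ρ * W c w l ρ
      = ∏ j ∈ Finset.range l, (if j < n then lin c (v j) (ρ j) else 1) * lin c (w j) (ρ j) := by
    intro ρ
    rw [Finset.prod_mul_distrib]
    congr 1
    unfold W
    rw [← Finset.prod_subset (Finset.range_subset_range.mpr h)]
    · apply Finset.prod_congr rfl
      intro j hj
      rw [if_pos (Finset.mem_range.mp hj)]
    · intro j _ hj
      rw [if_neg (by simpa using hj)]
  simp_rw [e]
  rw [prodE (fun j r => (if j < n then lin c (v j) r else 1) * lin c (w j) r) l]
  split_ifs with hnl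
  · subst hnl
    apply Finset.prod_congr rfl
    intro j hj
    simp only [if_pos (Finset.mem_range.mp hj)]
    exact lin_orth c (v j) (w j)
  · have hlt : n < l := lt_of_le_of_ne h hnl
    apply Finset.prod_eq_zero (Finset.mem_range.mpr hlt)
    simp only [lt_irrefl, if_false, one_mul]
    exact lin_mean c (w n)

lemma W_orth (c : Co) (v w : ℕ → Al → ℝ) (n l : ℕ) :
    ∫ ρ, W c v n ρ * W c w l ρ ∂nu
      = if n = l then ∏ j ∈ Finset.range n, dot (v j) (w j) else 0 := by
  rcases le_total n l with h | h
  · exact W_orth_le c v w n l h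
  · have := W_orth_le c w v l n h
    simp_rw [mul_comm (W c v n _) (W c w l _)]
    rw [this]
    by_cases hnl : n = l
    · subst hnl
      simp only [if_true]
      apply Finset.prod_congr rfl
      intro j _
      unfold dot
      exact Finset.sum_congr rfl (fun a _ => mul_comm _ _)
    · rw [if_neg hnl, if_neg (Ne.symm hnl)]

lemma W_cont (c : Co) (v : ℕ → Al → ℝ) (n : ℕ) : Continuous (W c v n) := by
  unfold W
  refine continuous_finsetProd _ (fun j _ => ?_)
  exact (continuous_of_discreteTopology : Continuous (lin c (v j))).comp (continuous_apply j)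

lemma int_of_cont {f : (ℕ → Rr) → ℝ} (hf : Continuous f) : Integrable f nu :=
  hf.integrable_of_hasCompactSupport (HasCompactSupport.of_compactSpace f)

end H282R3.MK
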