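import Mathlib
import Pool.Agent.H282R3.MK.Orth

set_option autoImplicit false
open MeasureTheory ProbabilityTheory Set Filter Topology
open scoped ENNReal

namespace H282R3.MK

/-- the state space: a colour and a sequence of symbols -/
abbrev St := Co × (ℕ → Rr)

/-- the `n`-fold product of coordinate kernels -/
noncomputable def Tn (n : ℕ) (x y : St) : ℝ :=
  ∏ j ∈ Finset.range n, Fk x.1 y.1 (x.2 j) (y.2 j)

/-- Kronecker delta -/
noncomputable def dl (a b : Al) : ℝ := if a = b then 1 else 0

/-- the multipliers -/
noncomputable def kap (τ : ℝ) (n : ℕ) (x y : St) : ℝ :=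
  if x.1.2.1 = y.1.2.1 then 1 - sg x.1.2.2 * sg y.1.2.2 * dl x.1.1 y.1.1
  else (if n = 0 then 1 else 0) + τ * (1 / 4) *
    (sg x.1.2.2 * th y.1 x.1.1 (y.2 n) - sg y.1.2.2 * th x.1 y.1.1 (x.2 n))

lemma dl_symm (a b : Al) : dl a b = dl b a := by
  unfold dl
  by_cases h : a = b
  · subst h; rfl
  · rw [if_neg h, if_neg (Ne.symm h)]

lemma Tn_symm (n : ℕ) (x y : St) : Tn n x y = Tn n y x := by
  unfold Tn
  exact Finset.prod_congr rfl (fun j _ => Fk_symm _ _ _ _)

lemma kap_symm (τ : ℝ) (n : ℕ) (x y : St) : kap τ n x y = kap (-τ) n y x := by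
  unfold kap
  by_cases h : x.1.2.1 = y.1.2.1
  · rw [if_pos h, if_pos h.symm, dl_symm]; ring
  · have h' : ¬ (y.1.2.1 = x.1.2.1) := fun h' => h h'.symm
    simp only [h, h', if_false]; ring

/-- first part of the coefficient of the expansion -/
noncomputable def U (τ : ℝ) (x : St) (c : Co) (n : ℕ) : ℝ :=
  if x.1.2.1 = c.2.1 then 1 - sg x.1.2.2 * sg c.2.2 * dl x.1.1 c.1
  else (if n = 0 then 1 else 0) - τ * (1 / 4) * (sg c.2.2 * th x.1 c.1 (x.2 n))

/-- second part of the coefficient of the expansion -/
noncomputable def V (τ : ℝ) (x : St) (c : Co) : ℝ :=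
  if x.1.2.1 = c.2.1 then 0 else τ * (1 / 4) * sg x.1.2.2

/-- coefficient vectors -/
noncomputable def vec (x : St) (j : ℕ) (a : Al) : ℝ := (1 / 16) * th x.1 a (x.2 j)

/-- basis vectors -/
noncomputable def ev (a : Al) (b : Al) : ℝ := if b = a then 1 else 0

lemma lin_vec (x : St) (c : Co) (j : ℕ) (r : Rr) : lin c (vec x j) r = Fk x.1 c (x.2 j) r := by
  unfold lin vec Fk
  rw [Finset.mul_sum]
  exact Finset.sum_congr rfl (fun a _ => by ring)

lemma lin_ev (c : Co) (a : Al) (r : Rr) : lin c (ev a) r = th c a r := by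
  unfold lin ev
  simp

lemma Tn_eq (x : St) (c : Co) (ρ : ℕ → Rr) (n : ℕ) : Tn n x (c, ρ) = W c (vec x) n ρ := by
  unfold Tn W
  exact Finset.prod_congr rfl (fun j _ => (lin_vec x c j (ρ j)).symm)

lemma W_upd (c : Co) (v : ℕ → Al → ℝ) (u : Al → ℝ) (n : ℕ) (ρ : ℕ → Rr) :
    W c (Function.update v n u) (n + 1) ρ = W c v n ρ * lin c u (ρ n) := by
  unfold W
  rw [Finset.prod_range_succ, Function.update_self]
  congr 1
  apply Finset.prod_congr rfl
  intro j hj
  rw [Function.update_of_ne (by have := Finset.mem_range.mp hj; omega)]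

lemma term_eq (τ : ℝ) (x : St) (c : Co) (ρ : ℕ → Rr) (n : ℕ) :
    Tn n x (c, ρ) * kap τ n x (c, ρ)
      = U τ x c n * W c (vec x) n ρ
        + V τ x c * W c (Function.update (vec x) n (ev x.1.1)) (n + 1) ρ := by
  rw [W_upd, lin_ev, Tn_eq]
  unfold kap U V
  by_cases h : x.1.2.1 = c.2.1
  · simp only [h, if_true]; ring
  · simp only [h, if_false]; ring

/-- products of scalar products -/
noncomputable def qn (x z : St) (n : ℕ) : ℝ := ∏ j ∈ Finset.range n, dot (vec x j) (vec z j)

lemma dot_vec_ev (x : St) (j : ℕ) (a : Al) : dot (vec x j) (ev a) = (1 / 16) * th x.1 a (x.2 j) := by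
  unfold dot ev
  simp [vec]

lemma dot_ev_vec (x : St) (j : ℕ) (a : Al) : dot (ev a) (vec x j) = (1 / 16) * th x.1 a (x.2 j) := by
  unfold dot ev
  simp [vec]

lemma dot_ev_ev (a b : Al) : dot (ev a) (ev b) = dl a b := by
  unfold dot ev dl
  by_cases h : a = b
  · subst h; simp
  · simp [h, Ne.symm h]

/-- integral of the product of two terms -/
lemma term_int (x z : St) (c : Co) (n l : ℕ) (τ σ : ℝ) :
    ∫ ρ, (Tn n x (c, ρ) * kap τ n x (c, ρ)) * (Tn l z (c, ρ) * kap σ l z (c, ρ)) ∂nu
      = (if n = l then qn x z n * (U τ x c n * U σ z c n + V τ x c * V σ z c * dl x.1.1 z.1.1) else 0)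
        + (if n = l + 1 then qn x z l * (U τ x c (l + 1) * V σ z c *
            ((1 / 16) * th x.1 z.1.1 (x.2 l))) else 0)
        + (if l = n + 1 then qn x z n * (V τ x c * U σ z c (n + 1) *
            ((1 / 16) * th z.1 x.1.1 (z.2 n))) else 0) := by
  simp_rw [term_eq]
  have e : ∀ ρ : ℕ → Rr,
      (U τ x c n * W c (vec x) n ρ + V τ x c * W c (Function.update (vec x) n (ev x.1.1)) (n + 1) ρ)
      * (U σ z c l * W c (vec z) l ρ + V σ z c * W c (Function.update (vec z) l (ev z.1.1)) (l + 1) ρ)
      = (U τ x c n * U σ z c l) * (W c (vec x) n ρ * W c (vec z) l ρ)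
      + (U τ x c n * V σ z c) * (W c (vec x) n ρ * W c (Function.update (vec z) l (ev z.1.1)) (l + 1) ρ)
      + (V τ x c * U σ z c l) * (W c (Function.update (vec x) n (ev x.1.1)) (n + 1) ρ * W c (vec z) l ρ)
      + (V τ x c * V σ z c) * (W c (Function.update (vec x) n (ev x.1.1)) (n + 1) ρ
          * W c (Function.update (vec z) l (ev z.1.1)) (l + 1) ρ) := by
    intro ρ; ring
  simp_rw [e]
  have hi : ∀ (v w : ℕ → Al → ℝ) (n l : ℕ) (k : ℝ),
      Integrable (fun ρ => k * (W c v n ρ * W c w l ρ)) nu := by
    intro v w n l k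
    exact (int_of_cont ((W_cont c v n).mul (W_cont c w l))).const_mul k
  rw [integral_add, integral_add, integral_add]
  · simp only [integral_const_mul, W_orth]
    by_cases h1 : n = l
    · subst h1
      have h2 : ¬ (n = n + 1) := by omega
      have h3 : ¬ (n + 1 = n) := by omega
      simp only [if_true, h2, h3, if_false, mul_zero, add_zero]
      rw [Finset.prod_range_succ]
      have : ∏ j ∈ Finset.range n, dot (Function.update (vec x) n (ev x.1.1) j)
          (Function.update (vec z) n (ev z.1.1) j) = qn x z n := by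
        unfold qn
        apply Finset.prod_congr rfl
        intro j hj
        have := Finset.mem_range.mp hj
        rw [Function.update_of_ne (by omega), Function.update_of_ne (by omega)]
      rw [this, Function.update_self, Function.update_self, dot_ev_ev]
      unfold qn
      ring
    · have h1' : ¬ (n + 1 = l + 1) := by omega
      simp only [h1, h1', if_false, mul_zero, zero_add, add_zero]
      by_cases h2 : n = l + 1
      · subst h2
        have h3 : ¬ (l + 1 + 1 = l) := by omega
        have h4 : ¬ (l = l + 1 + 1) := by omega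
        simp only [if_true, h3, h4, if_false, mul_zero, add_zero]
        rw [Finset.prod_range_succ]
        have : ∏ j ∈ Finset.range l, dot (vec x j)
            (Function.update (vec z) l (ev z.1.1) j) = qn x z l := by
          unfold qn
          apply Finset.prod_congr rfl
          intro j hj
          have := Finset.mem_range.mp hj
          rw [Function.update_of_ne (by omega)]
        rw [this, Function.update_self, dot_vec_ev]
        ring
      · simp only [h2, if_false, mul_zero, zero_add]
        by_cases h3 : n + 1 = l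
        · subst h3
          simp only [if_true]
          rw [Finset.prod_range_succ]
          have : ∏ j ∈ Finset.range n, dot (Function.update (vec x) n (ev x.1.1) j)
              (vec z j) = qn x z n := by
            unfold qn
            apply Finset.prod_congr rfl
            intro j hj
            have := Finset.mem_range.mp hj
            rw [Function.update_of_ne (by omega)]
          rw [this, Function.update_self, dot_ev_vec]
          ring
        · have h3' : ¬ (l = n + 1) := fun h => h3 h.symm
          simp only [h3, h3', if_false, mul_zero]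
  all_goals first
    | exact hi _ _ _ _ _
    | exact (hi _ _ _ _ _).add (hi _ _ _ _ _)
    | exact ((hi _ _ _ _ _).add (hi _ _ _ _ _)).add (hi _ _ _ _ _)

end H282R3.MK
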