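import Mathlib
import Pool.Agent.H282R3.MK.Kernel

set_option autoImplicit false
open MeasureTheory ProbabilityTheory Set Filter Topology
open scoped ENNReal

namespace H282R3.MK

lemma sum_Co (G : Co → ℝ) : ∑ c : Co, G c
    = ∑ a : Al, (G (a, false, false) + G (a, false, true) + G (a, true, false) + G (a, true, true)) := by
  rw [Fintype.sum_prod_type]
  refine Finset.sum_congr rfl (fun a _ => ?_)
  rw [Fintype.sum_prod_type]
  simp only [Fintype.sum_bool]
  ring

lemma sum_dl (a : Al) (f : Al → ℝ) : ∑ b, dl a b * f b = f a := by simp [dl]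

lemma sum_dl_dl (a b : Al) : ∑ c, dl a c * dl b c = dl a b := by
  rw [sum_dl, dl_symm]

lemma dot_vec (x z : St) (n : ℕ) : dot (vec x n) (vec z n)
    = (1 / 256) * ∑ a : Al, th x.1 a (x.2 n) * th z.1 a (z.2 n) := by
  unfold dot vec
  rw [Finset.mul_sum]
  refine Finset.sum_congr rfl (fun a _ => by ring)

lemma sg_f : sg false = 1 := by simp [sg]
lemma sg_t : sg true = -1 := by simp [sg]

lemma Bsame (x z : St) (n : ℕ) (h : x.1.2.1 = z.1.2.1) :
    ∑ c : Co, (U 1 x c n * U (-1) z c n + V 1 x c * V (-1) z c * dl x.1.1 z.1.1)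
      = 32 * (1 + (if n = 0 then 1 else 0) - dot (vec x n) (vec z n)) := by
  rw [sum_Co, dot_vec]
  obtain ⟨⟨α, e, s⟩, ρ⟩ := x
  obtain ⟨⟨α', e', s'⟩, ρ'⟩ := z
  simp only at h
  subst h
  have per : ∀ a : Al,
      ((U 1 (((α, e, s), ρ) : St) (a, false, false) n * U (-1) (((α', e, s'), ρ') : St) (a, false, false) n
        + V 1 (((α, e, s), ρ) : St) (a, false, false) * V (-1) (((α', e, s'), ρ') : St) (a, false, false) * dl α α')
      + (U 1 (((α, e, s), ρ) : St) (a, false, true) n * U (-1) (((α', e, s'), ρ') : St) (a, false, true) n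
        + V 1 (((α, e, s), ρ) : St) (a, false, true) * V (-1) (((α', e, s'), ρ') : St) (a, false, true) * dl α α')
      + (U 1 (((α, e, s), ρ) : St) (a, true, false) n * U (-1) (((α', e, s'), ρ') : St) (a, true, false) n
        + V 1 (((α, e, s), ρ) : St) (a, true, false) * V (-1) (((α', e, s'), ρ') : St) (a, true, false) * dl α α')
      + (U 1 (((α, e, s), ρ) : St) (a, true, true) n * U (-1) (((α', e, s'), ρ') : St) (a, true, true) n
        + V 1 (((α, e, s), ρ) : St) (a, true, true) * V (-1) (((α', e, s'), ρ') : St) (a, true, true) * dl α α'))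
      = 2 + 2 * (sg s * sg s') * (dl α a * dl α' a) + 2 * (if n = 0 then 1 else 0)
        - (1 / 8) * (th (α, e, s) a (ρ n) * th (α', e, s') a (ρ' n)) - (1 / 8) * (sg s * sg s') * dl α α' := by
    intro a
    cases e <;> by_cases hn : n = 0 <;> simp [U, V, sg_f, sg_t, hn] <;> ring
  rw [Finset.sum_congr rfl (fun a _ => per a)]
  simp only [Finset.sum_add_distrib, Finset.sum_sub_distrib, ← Finset.mul_sum, Finset.sum_const,
    card_Al, sum_dl_dl]
  simp only [nsmul_eq_mul]
  push_cast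
  ring

lemma Dsame (x z : St) (n : ℕ) (h : x.1.2.1 = z.1.2.1) :
    ∑ c : Co, (U 1 x c (n + 1) * V (-1) z c * ((1 / 16) * th x.1 z.1.1 (x.2 n))
      + V 1 x c * U (-1) z c (n + 1) * ((1 / 16) * th z.1 x.1.1 (z.2 n))) = 0 := by
  rw [sum_Co]
  obtain ⟨⟨α, e, s⟩, ρ⟩ := x
  obtain ⟨⟨α', e', s'⟩, ρ'⟩ := z
  simp only at h
  subst h
  apply Finset.sum_eq_zero
  intro a _
  cases e <;> simp [U, V, sg_f, sg_t] <;> ring

/-- the boundary term -/
noncomputable def hn (x z : St) (n : ℕ) : ℝ :=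
  (1 / 2) * (sg z.1.2.2 * th x.1 z.1.1 (x.2 n) - sg x.1.2.2 * th z.1 x.1.1 (z.2 n))

lemma Bdiff (x z : St) (n : ℕ) (h : x.1.2.1 ≠ z.1.2.1) :
    ∑ c : Co, (U 1 x c n * U (-1) z c n + V 1 x c * V (-1) z c * dl x.1.1 z.1.1)
      = 64 * (if n = 0 then 1 else 0) + hn x z n := by
  rw [sum_Co]
  obtain ⟨⟨α, e, s⟩, ρ⟩ := x
  obtain ⟨⟨α', e', s'⟩, ρ'⟩ := z
  simp only at h
  have he : e' = !e := by cases e <;> cases e' <;> simp_all
  subst he
  have per : ∀ a : Al,
      ((U 1 (((α, e, s), ρ) : St) (a, false, false) n * U (-1) (((α', !e, s'), ρ') : St) (a, false, false) n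
        + V 1 (((α, e, s), ρ) : St) (a, false, false) * V (-1) (((α', !e, s'), ρ') : St) (a, false, false) * dl α α')
      + (U 1 (((α, e, s), ρ) : St) (a, false, true) n * U (-1) (((α', !e, s'), ρ') : St) (a, false, true) n
        + V 1 (((α, e, s), ρ) : St) (a, false, true) * V (-1) (((α', !e, s'), ρ') : St) (a, false, true) * dl α α')
      + (U 1 (((α, e, s), ρ) : St) (a, true, false) n * U (-1) (((α', !e, s'), ρ') : St) (a, true, false) n
        + V 1 (((α, e, s), ρ) : St) (a, true, false) * V (-1) (((α', !e, s'), ρ') : St) (a, true, false) * dl α α')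
      + (U 1 (((α, e, s), ρ) : St) (a, true, true) n * U (-1) (((α', !e, s'), ρ') : St) (a, true, true) n
        + V 1 (((α, e, s), ρ) : St) (a, true, true) * V (-1) (((α', !e, s'), ρ') : St) (a, true, true) * dl α α'))
      = 4 * (if n = 0 then 1 else 0)
        + (1 / 2) * sg s' * (dl α' a * th (α, e, s) a (ρ n))
        - (1 / 2) * sg s * (dl α a * th (α', !e, s') a (ρ' n)) := by
    intro a
    cases e <;> by_cases hn : n = 0 <;> simp [U, V, sg_f, sg_t, hn] <;> ring
  rw [Finset.sum_congr rfl (fun a _ => per a)]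
  simp only [Finset.sum_add_distrib, Finset.sum_sub_distrib, ← Finset.mul_sum, Finset.sum_const,
    card_Al, sum_dl]
  simp only [nsmul_eq_mul, hn]
  push_cast
  ring

lemma Ddiff (x z : St) (n : ℕ) (h : x.1.2.1 ≠ z.1.2.1) :
    ∑ c : Co, (U 1 x c (n + 1) * V (-1) z c * ((1 / 16) * th x.1 z.1.1 (x.2 n))
      + V 1 x c * U (-1) z c (n + 1) * ((1 / 16) * th z.1 x.1.1 (z.2 n))) = - hn x z n := by
  rw [sum_Co]
  obtain ⟨⟨α, e, s⟩, ρ⟩ := x
  obtain ⟨⟨α', e', s'⟩, ρ'⟩ := z
  simp only at h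
  have he : e' = !e := by cases e <;> cases e' <;> simp_all
  subst he
  have per : ∀ a : Al,
      ((U 1 (((α, e, s), ρ) : St) (a, false, false) (n + 1) * V (-1) (((α', !e, s'), ρ') : St) (a, false, false) * ((1 / 16) * th (α, e, s) α' (ρ n))
        + V 1 (((α, e, s), ρ) : St) (a, false, false) * U (-1) (((α', !e, s'), ρ') : St) (a, false, false) (n + 1) * ((1 / 16) * th (α', !e, s') α (ρ' n)))
      + (U 1 (((α, e, s), ρ) : St) (a, false, true) (n + 1) * V (-1) (((α', !e, s'), ρ') : St) (a, false, true) * ((1 / 16) * th (α, e, s) α' (ρ n))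
        + V 1 (((α, e, s), ρ) : St) (a, false, true) * U (-1) (((α', !e, s'), ρ') : St) (a, false, true) (n + 1) * ((1 / 16) * th (α', !e, s') α (ρ' n)))
      + (U 1 (((α, e, s), ρ) : St) (a, true, false) (n + 1) * V (-1) (((α', !e, s'), ρ') : St) (a, true, false) * ((1 / 16) * th (α, e, s) α' (ρ n))
        + V 1 (((α, e, s), ρ) : St) (a, true, false) * U (-1) (((α', !e, s'), ρ') : St) (a, true, false) (n + 1) * ((1 / 16) * th (α', !e, s') α (ρ' n)))
      + (U 1 (((α, e, s), ρ) : St) (a, true, true) (n + 1) * V (-1) (((α', !e, s'), ρ') : St) (a, true, true) * ((1 / 16) * th (α, e, s) α' (ρ n))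
        + V 1 (((α, e, s), ρ) : St) (a, true, true) * U (-1) (((α', !e, s'), ρ') : St) (a, true, true) (n + 1) * ((1 / 16) * th (α', !e, s') α (ρ' n))))
      = (1 / 32) * (sg s * th (α', !e, s') α (ρ' n) - sg s' * th (α, e, s) α' (ρ n)) := by
    intro a
    cases e <;> simp [U, V, sg_f, sg_t] <;> ring
  rw [Finset.sum_congr rfl (fun a _ => per a)]
  simp only [Finset.sum_const, card_Al, hn]
  simp only [nsmul_eq_mul]
  push_cast
  ring

/-- double sums with shifted indicators -/
lemma sum_shift (M : ℕ) (g : ℕ → ℝ) :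
    ∑ n ∈ Finset.range (M + 1), ∑ l ∈ Finset.range (M + 1), (if n = l + 1 then g l else 0)
      = ∑ l ∈ Finset.range M, g l := by
  rw [Finset.sum_comm]
  have : ∀ l ∈ Finset.range (M + 1), ∑ n ∈ Finset.range (M + 1), (if n = l + 1 then g l else 0)
      = if l < M then g l else 0 := by
    intro l _
    rw [Finset.sum_ite_eq']
    simp
  rw [Finset.sum_congr rfl this, Finset.sum_range_succ]
  simp only [lt_irrefl, if_false, add_zero]
  refine Finset.sum_congr rfl (fun l hl => ?_)
  rw [if_pos (Finset.mem_range.mp hl)]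

end H282R3.MK
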