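import Mathlib
import Pool.Agent.H282R3.MK.Avg

set_option autoImplicit false
open MeasureTheory ProbabilityTheory Set Filter Topology
open scoped ENNReal

namespace H282R3.MK

/-- one term of the kernel -/
noncomputable def tm (τ : ℝ) (n : ℕ) (x y : St) : ℝ := Tn n x y * kap τ n x y
/-- partial sums -/
noncomputable def pM (τ : ℝ) (M : ℕ) (x y : St) : ℝ := ∑ n ∈ Finset.range M, tm τ n x y
/-- the transition density -/
noncomputable def pk (τ : ℝ) (x y : St) : ℝ := ∑' n, tm τ n x y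

lemma tm_symm (τ : ℝ) (n : ℕ) (x y : St) : tm τ n x y = tm (-τ) n y x := by
  unfold tm; rw [Tn_symm, kap_symm]

lemma pk_symm (τ : ℝ) (x y : St) : pk τ x y = pk (-τ) y x := by
  unfold pk; exact tsum_congr (fun n => tm_symm τ n x y)

lemma kap_same (τ : ℝ) (n : ℕ) (x y : St) (h : x.1 = y.1) : kap τ n x y = 0 := by
  unfold kap
  rw [h]
  simp [dl, sg_sq]

lemma abs_Tn_le (n : ℕ) (x y : St) (h : x.1 ≠ y.1) : |Tn n x y| ≤ (1 / 2) ^ n := by
  unfold Tn
  rw [Finset.abs_prod]
  calc ∏ j ∈ Finset.range n, |Fk x.1 y.1 (x.2 j) (y.2 j)|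
      ≤ ∏ _j ∈ Finset.range n, (1 / 2 : ℝ) :=
        Finset.prod_le_prod (fun _ _ => abs_nonneg _) (fun j _ => Fk_le_half h _ _)
    _ = (1 / 2) ^ n := by simp

lemma abs_br (x y : St) (n : ℕ) :
    |sg x.1.2.2 * th y.1 x.1.1 (y.2 n) - sg y.1.2.2 * th x.1 y.1.1 (x.2 n)| ≤ 2 := by
  refine (abs_sub _ _).trans ?_
  rw [abs_mul, abs_mul, abs_sg, abs_sg, abs_th, abs_th]
  norm_num

lemma abs_ssd (x y : St) : |sg x.1.2.2 * sg y.1.2.2 * dl x.1.1 y.1.1| ≤ 1 := by
  rw [abs_mul, abs_mul, abs_sg, abs_sg]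
  unfold dl
  split_ifs <;> simp

lemma abs_kap_le (τ : ℝ) (hτ : |τ| = 1) (n : ℕ) (x y : St) : |kap τ n x y| ≤ 2 := by
  unfold kap
  by_cases h : x.1.2.1 = y.1.2.1
  · simp only [h, if_true]
    have := abs_le.mp (abs_ssd x y)
    rw [abs_le]; constructor <;> linarith [this.1, this.2]
  · simp only [h, if_false]
    have h1 : |τ * (1 / 4) * (sg x.1.2.2 * th y.1 x.1.1 (y.2 n) - sg y.1.2.2 * th x.1 y.1.1 (x.2 n))|
        ≤ 1 / 2 := by
      rw [abs_mul, abs_mul, hτ]
      have := abs_br x y n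
      rw [abs_of_pos (by norm_num : (0:ℝ) < 1 / 4)]
      linarith
    have h2 : |(if n = 0 then (1:ℝ) else 0)| ≤ 1 := by split_ifs <;> simp
    exact (abs_add_le _ _).trans (by linarith)

lemma abs_tm_le (τ : ℝ) (hτ : |τ| = 1) (n : ℕ) (x y : St) : |tm τ n x y| ≤ 2 * (1 / 2) ^ n := by
  unfold tm
  by_cases h : x.1 = y.1
  · rw [kap_same τ n x y h, mul_zero, abs_zero]; positivity
  · rw [abs_mul]
    calc |Tn n x y| * |kap τ n x y| ≤ (1 / 2) ^ n * 2 :=
          mul_le_mul (abs_Tn_le n x y h) (abs_kap_le τ hτ n x y) (abs_nonneg _) (by positivity)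
      _ = 2 * (1 / 2) ^ n := by ring

lemma summ_tm (τ : ℝ) (hτ : |τ| = 1) (x y : St) : Summable (fun n => tm τ n x y) := by
  refine Summable.of_norm_bounded (g := fun n => 2 * (1 / 2 : ℝ) ^ n) ?_ (fun n => abs_tm_le τ hτ n x y)
  exact (summable_geometric_of_lt_one (by norm_num) (by norm_num)).mul_left 2

lemma pM_tendsto (τ : ℝ) (hτ : |τ| = 1) (x y : St) :
    Tendsto (fun M => pM τ (M + 1) x y) atTop (𝓝 (pk τ x y)) := by
  have := (summ_tm τ hτ x y).hasSum.tendsto_sum_nat
  exact this.comp (tendsto_add_atTop_nat 1)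

lemma abs_pM_le (τ : ℝ) (hτ : |τ| = 1) (M : ℕ) (x y : St) : |pM τ M x y| ≤ 4 := by
  unfold pM
  refine (Finset.abs_sum_le_sum_abs _ _).trans ?_
  refine (Finset.sum_le_sum (fun n _ => abs_tm_le τ hτ n x y)).trans ?_
  rw [← Finset.mul_sum]
  have : ∑ n ∈ Finset.range M, (1 / 2 : ℝ) ^ n ≤ 2 := by
    have h := (summable_geometric_of_lt_one (r := (1/2:ℝ)) (by norm_num) (by norm_num)).sum_le_tsum
      (Finset.range M) (fun n _ => by positivity)
    rw [tsum_geometric_of_lt_one (by norm_num) (by norm_num)] at h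
    norm_num at h ⊢
    exact h
  linarith

lemma pos_aux (f : ℕ → ℝ) (b : ℝ) (h0 : b ≤ f 0) (h1 : ∀ n, 1 ≤ n → |f n| ≤ b * (1 / 2) ^ n)
    (M : ℕ) : b * (1 / 2) ^ M ≤ ∑ n ∈ Finset.range (M + 1), f n := by
  induction M with
  | zero => simpa using h0
  | succ M ih =>
    rw [Finset.sum_range_succ]
    have := (abs_le.mp (h1 (M + 1) (by omega))).1
    have e : b * (1 / 2) ^ (M + 1) = b * (1 / 2) ^ M - b * (1 / 2) ^ (M + 1) := by
      rw [pow_succ]; ring
    linarith

lemma pM_nonneg (τ : ℝ) (hτ : |τ| = 1) (M : ℕ) (x y : St) : 0 ≤ pM τ (M + 1) x y := by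
  by_cases h : x.1 = y.1
  · unfold pM tm
    simp [kap_same τ _ x y h]
  · by_cases he : x.1.2.1 = y.1.2.1
    · have hb := abs_le.mp (abs_ssd x y)
      set b : ℝ := 1 - sg x.1.2.2 * sg y.1.2.2 * dl x.1.1 y.1.1 with hbdef
      have hb0 : 0 ≤ b := by linarith [hb.2]
      have hk : ∀ n, kap τ n x y = b := by
        intro n; unfold kap; rw [if_pos he]
      have := pos_aux (fun n => tm τ n x y) b (by simp [tm, hk, Tn]) (fun n _ => by
        simp only [tm, hk, abs_mul, abs_of_nonneg hb0]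
        rw [mul_comm]
        exact mul_le_mul_of_nonneg_left (abs_Tn_le n x y h) hb0) M
      exact le_trans (by positivity) this
    · have h1 : ∀ n, |τ * (1 / 4) * (sg x.1.2.2 * th y.1 x.1.1 (y.2 n)
          - sg y.1.2.2 * th x.1 y.1.1 (x.2 n))| ≤ 1 / 2 := by
        intro n
        rw [abs_mul, abs_mul, hτ]
        have := abs_br x y n
        rw [abs_of_pos (by norm_num : (0:ℝ) < 1 / 4)]
        linarith
      have := pos_aux (fun n => tm τ n x y) (1 / 2) (by
          have h2 := (abs_le.mp (h1 0)).1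
          simp only [tm, kap, he, if_false, Tn, Finset.range_zero, Finset.prod_empty, one_mul, if_true]
          linarith) (fun n hn => by
        have hn0 : n ≠ 0 := by omega
        simp only [tm, kap, he, if_false, hn0, zero_add]
        rw [abs_mul]
        calc _ ≤ (1 / 2) ^ n * (1 / 2) :=
              mul_le_mul (abs_Tn_le n x y h) (h1 n) (abs_nonneg _) (by positivity)
          _ = 1 / 2 * (1 / 2) ^ n := by ring) M
      exact le_trans (by positivity) this

lemma pk_nonneg (τ : ℝ) (hτ : |τ| = 1) (x y : St) : 0 ≤ pk τ x y :=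
  ge_of_tendsto' (pM_tendsto τ hτ x y) (fun M => pM_nonneg τ hτ M x y)

lemma pk_same (τ : ℝ) (x y : St) (h : x.1 = y.1) : pk τ x y = 0 := by
  unfold pk tm
  simp [kap_same τ _ x y h]

lemma gen_cont (F : Co → Co → Rr → Rr → ℝ) (j : ℕ) :
    Continuous (fun q : St × St => F q.1.1 q.2.1 (q.1.2 j) (q.2.2 j)) := by
  have h1 : Continuous (fun q : St × St => ((q.1.1, q.2.1), (q.1.2 j, q.2.2 j))) := by
    refine ((continuous_fst.comp continuous_fst).prodMk (continuous_fst.comp continuous_snd)).prodMk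
      (((continuous_apply j).comp (continuous_snd.comp continuous_fst)).prodMk
        ((continuous_apply j).comp (continuous_snd.comp continuous_snd)))
  have h2 : Continuous (fun p : (Co × Co) × (Rr × Rr) => F p.1.1 p.1.2 p.2.1 p.2.2) :=
    continuous_of_discreteTopology
  exact h2.comp h1

lemma Tn_cont (n : ℕ) : Continuous (fun q : St × St => Tn n q.1 q.2) := by
  unfold Tn
  exact continuous_finsetProd _ (fun j _ => gen_cont Fk j)

lemma kap_cont (τ : ℝ) (n : ℕ) : Continuous (fun q : St × St => kap τ n q.1 q.2) := by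
  have h1 : Continuous (fun q : St × St => ((q.1.1, q.2.1), (q.1.2 n, q.2.2 n))) := by
    refine ((continuous_fst.comp continuous_fst).prodMk (continuous_fst.comp continuous_snd)).prodMk
      (((continuous_apply n).comp (continuous_snd.comp continuous_fst)).prodMk
        ((continuous_apply n).comp (continuous_snd.comp continuous_snd)))
  have h2 : Continuous (fun p : (Co × Co) × (Rr × Rr) =>
      if p.1.1.2.1 = p.1.2.2.1 then 1 - sg p.1.1.2.2 * sg p.1.2.2.2 * dl p.1.1.1 p.1.2.1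
      else (if n = 0 then 1 else 0) + τ * (1 / 4) *
        (sg p.1.1.2.2 * th p.1.2 p.1.1.1 p.2.2 - sg p.1.2.2.2 * th p.1.1 p.1.2.1 p.2.1)) :=
    continuous_of_discreteTopology
  exact h2.comp h1

lemma tm_cont (τ : ℝ) (n : ℕ) : Continuous (fun q : St × St => tm τ n q.1 q.2) :=
  (Tn_cont n).mul (kap_cont τ n)

lemma pM_cont (τ : ℝ) (M : ℕ) : Continuous (fun q : St × St => pM τ M q.1 q.2) := by
  unfold pM
  exact continuous_finsetSum _ (fun n _ => tm_cont τ n)

end H282R3.MK
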