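import Mathlib

set_option autoImplicit false
open MeasureTheory ProbabilityTheory Set Filter Topology
open scoped ENNReal

namespace H282R3.MK

section base

variable {S : Type} [MeasurableSpace S] (π : Measure S) [IsProbabilityMeasure π]

/-- product reference measure on two-sided sequences -/
noncomputable def ref : Measure (ℤ → S) := Measure.infinitePi (fun _ : ℤ => π)

instance : IsProbabilityMeasure (ref π) := by unfold ref; infer_instance

lemma resample_map (j : ℤ) :
    ((ref π).prod π).map (fun q : (ℤ → S) × S => Function.update q.1 j q.2) = ref π := by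
  have hm : Measurable (fun q : (ℤ → S) × S => Function.update q.1 j q.2) := by
    rw [measurable_pi_iff]
    intro i
    by_cases h : i = j
    · subst h; simp only [Function.update_self]; exact measurable_snd
    · simp only [Function.update_of_ne h]; exact (measurable_pi_apply i).comp measurable_fst
  unfold ref
  apply Measure.eq_infinitePi
  intro s t ht
  rw [Measure.map_apply hm (MeasurableSet.pi (Finset.countable_toSet _) (fun i _ => ht i))]
  have hpre : (fun q : (ℤ → S) × S => Function.update q.1 j q.2) ⁻¹' (Set.pi (s : Set ℤ) t)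
      = (Set.pi ((s.erase j : Finset ℤ) : Set ℤ) t) ×ˢ (if j ∈ s then t j else univ) := by
    ext ⟨ω, y⟩
    simp only [mem_preimage, Set.mem_pi, Finset.mem_coe, mem_prod, Finset.mem_erase]
    constructor
    · intro h
      refine ⟨fun i hi => by simpa [Function.update_of_ne hi.1] using h i hi.2, ?_⟩
      split_ifs with hj
      · simpa using h j hj
      · trivial
    · rintro ⟨h1, h2⟩ i hi
      by_cases hij : i = j
      · subst hij; simpa [hi] using h2
      · simpa [Function.update_of_ne hij] using h1 i ⟨hij, hi⟩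
  rw [hpre, Measure.prod_prod, Measure.infinitePi_pi _ (fun i _ => ht i)]
  by_cases hj : j ∈ s
  · simp only [hj, if_true]
    rw [mul_comm, Finset.mul_prod_erase s (fun i => π (t i)) hj]
  · simp [hj]

lemma meas_update (j : ℤ) : Measurable (fun q : (ℤ → S) × S => Function.update q.1 j q.2) := by
    rw [measurable_pi_iff]
    intro i
    by_cases h : i = j
    · subst h; simp only [Function.update_self]; exact measurable_snd
    · simp only [Function.update_of_ne h]; exact (measurable_pi_apply i).comp measurable_fst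

lemma resample (j : ℤ) (H : (ℤ → S) → ℝ≥0∞) (hH : Measurable H) :
    ∫⁻ ω, H ω ∂(ref π) = ∫⁻ ω, ∫⁻ y, H (Function.update ω j y) ∂π ∂(ref π) := by
  conv_lhs => rw [← resample_map π j]
  rw [lintegral_map hH (meas_update j)]
  exact lintegral_prod _ (hH.comp (meas_update j)).aemeasurable

/-- shift -/
def sh (m : ℤ) (ω : ℤ → S) : ℤ → S := fun i => ω (i + m)

lemma meas_sh (m : ℤ) : Measurable (sh (S := S) m) := by
  rw [measurable_pi_iff]; intro i; exact measurable_pi_apply _

lemma ref_shift (m : ℤ) : (ref π).map (sh m) = ref π := by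
  unfold ref
  apply Measure.eq_infinitePi
  intro s (t : ℤ → Set S) ht
  rw [Measure.map_apply (meas_sh m) (MeasurableSet.pi (Finset.countable_toSet _) (fun i _ => ht i))]
  have hpre : (sh m) ⁻¹' (Set.pi (s : Set ℤ) t)
      = Set.pi ((s.image (fun i => i + m) : Finset ℤ) : Set ℤ) (fun i => t (i - m)) := by
    ext ω
    simp only [mem_preimage, Set.mem_pi, Finset.mem_coe, Finset.mem_image, sh]
    constructor
    · rintro h i ⟨k, hk, rfl⟩
      simpa using h k hk
    · intro h i hi
      simpa using h (i + m) ⟨i, hi, rfl⟩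
  rw [hpre, Measure.infinitePi_pi _ (fun i _ => ht _), Finset.prod_image (by intro a _ b _ h; simpa using h)]
  apply Finset.prod_congr rfl
  intro i _
  rw [add_sub_cancel_right]

variable (P : S → S → ℝ≥0∞)

/-- density of the window `[a, a+n]` -/
noncomputable def Wd (a : ℤ) (n : ℕ) (ω : ℤ → S) : ℝ≥0∞ :=
  ∏ i ∈ Finset.range n, P (ω (a + i)) (ω (a + i + 1))

lemma meas_Wd (hP : Measurable (Function.uncurry P)) (a : ℤ) (n : ℕ) : Measurable (Wd P a n) := by
  unfold Wd
  refine Finset.measurable_prod _ (fun i _ => ?_)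
  exact hP.comp (((measurable_pi_apply (a + i) : Measurable (fun ω : ℤ → S => ω (a + i))).prodMk
    (measurable_pi_apply (a + i + 1) : Measurable (fun ω : ℤ → S => ω (a + i + 1)))))

omit [MeasurableSpace S] in
lemma Wd_succ (a : ℤ) (n : ℕ) (ω : ℤ → S) :
    Wd P a (n + 1) ω = Wd P a n ω * P (ω (a + n)) (ω (a + n + 1)) := by
  unfold Wd; rw [Finset.prod_range_succ]

omit [MeasurableSpace S] in
lemma Wd_succ' (a : ℤ) (n : ℕ) (ω : ℤ → S) :
    Wd P (a - 1) (n + 1) ω = P (ω (a - 1)) (ω a) * Wd P a n ω := by
  unfold Wd; rw [Finset.prod_range_succ', mul_comm]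
  congr 1
  · simp
  · apply Finset.prod_congr rfl
    intro i _
    congr 2 <;> push_cast <;> ring_nf

omit [MeasurableSpace S] in
lemma Wd_update (a : ℤ) (n : ℕ) (j : ℤ) (hj : j < a ∨ a + n < j) (ω : ℤ → S) (y : S) :
    Wd P a n (Function.update ω j y) = Wd P a n ω := by
  unfold Wd
  apply Finset.prod_congr rfl
  intro i hi
  have hi' : (i : ℤ) < n := by exact_mod_cast Finset.mem_range.mp hi
  rw [Function.update_of_ne (by omega), Function.update_of_ne (by omega)]

lemma int_right (hP : Measurable (Function.uncurry P)) (a : ℤ) (n : ℕ)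
    (F : (ℤ → S) → ℝ≥0∞) (hF : Measurable F)
    (hFi : ∀ ω y, F (Function.update ω (a + n + 1) y) = F ω) (g : S → ℝ≥0∞) (hg : Measurable g) :
    ∫⁻ ω, F ω * g (ω (a + n + 1)) * Wd P a (n + 1) ω ∂(ref π)
      = ∫⁻ ω, F ω * (∫⁻ y, P (ω (a + n)) y * g y ∂π) * Wd P a n ω ∂(ref π) := by
  rw [resample π (a + n + 1)]
  · apply lintegral_congr
    intro ω
    have : ∀ y, F (Function.update ω (a + n + 1) y) * g (Function.update ω (a + n + 1) y (a + n + 1))
        * Wd P a (n + 1) (Function.update ω (a + n + 1) y)
        = (F ω * Wd P a n ω) * (P (ω (a + n)) y * g y) := by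
      intro y
      rw [hFi, Wd_succ, Wd_update P a n _ (Or.inr (by omega)), Function.update_self,
        Function.update_of_ne (by omega)]
      ring
    simp_rw [this]
    rw [lintegral_const_mul]
    · ring
    · exact (hP.comp (measurable_const.prodMk measurable_id)).mul hg
  · exact (hF.mul (hg.comp (measurable_pi_apply _))).mul (meas_Wd P hP a (n + 1))

lemma int_left (hP : Measurable (Function.uncurry P)) (a : ℤ) (n : ℕ)
    (h2 : ∀ y, ∫⁻ x, P x y ∂π = 1)
    (F : (ℤ → S) → ℝ≥0∞) (hF : Measurable F)
    (hFi : ∀ ω y, F (Function.update ω (a - 1) y) = F ω) :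
    ∫⁻ ω, F ω * Wd P (a - 1) (n + 1) ω ∂(ref π)
      = ∫⁻ ω, F ω * Wd P a n ω ∂(ref π) := by
  rw [resample π (a - 1)]
  · apply lintegral_congr
    intro ω
    have : ∀ y, F (Function.update ω (a - 1) y)
        * Wd P (a - 1) (n + 1) (Function.update ω (a - 1) y)
        = (F ω * Wd P a n ω) * P y (ω a) := by
      intro y
      rw [hFi, Wd_succ', Wd_update P a n _ (Or.inl (by omega)), Function.update_self,
        Function.update_of_ne (by omega)]
      ring
    simp_rw [this]
    rw [lintegral_const_mul, h2, mul_one]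
    exact hP.comp (measurable_id.prodMk measurable_const)
  · exact hF.mul (meas_Wd P hP _ (n + 1))

lemma int_right_one (hP : Measurable (Function.uncurry P)) (h1 : ∀ x, ∫⁻ y, P x y ∂π = 1)
    (a : ℤ) (n : ℕ)
    (F : (ℤ → S) → ℝ≥0∞) (hF : Measurable F)
    (hFi : ∀ ω y, F (Function.update ω (a + n + 1) y) = F ω) :
    ∫⁻ ω, F ω * Wd P a (n + 1) ω ∂(ref π) = ∫⁻ ω, F ω * Wd P a n ω ∂(ref π) := by
  have := int_right π P hP a n F hF hFi (fun _ => 1) measurable_const
  simpa [h1] using this

/-- a functional of the window `[a, a+n]` has the same integral against all larger windows -/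
lemma int_window (hP : Measurable (Function.uncurry P)) (h1 : ∀ x, ∫⁻ y, P x y ∂π = 1)
    (h2 : ∀ y, ∫⁻ x, P x y ∂π = 1) (a : ℤ) (n : ℕ)
    (F : (ℤ → S) → ℝ≥0∞) (hF : Measurable F)
    (hFi : ∀ j, (j < a ∨ a + n < j) → ∀ ω y, F (Function.update ω j y) = F ω) (k l : ℕ) :
    ∫⁻ ω, F ω * Wd P (a - k) (n + k + l) ω ∂(ref π) = ∫⁻ ω, F ω * Wd P a n ω ∂(ref π) := by
  induction l with
  | zero =>
    induction k with
    | zero => simp
    | succ k ih =>
      rw [← ih]
      have := int_left π P hP (a - k) (n + k) h2 F hF (hFi _ (Or.inl (by omega)))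
      rw [show a - ((k + 1 : ℕ) : ℤ) = a - k - 1 by push_cast; ring]
      simpa [add_assoc] using this
  | succ l ih =>
    rw [← ih]
    have := int_right_one π P hP h1 (a - k) (n + k + l) F hF (hFi _ (Or.inr (by push_cast; omega)))
    simpa [add_assoc] using this

end base

end H282R3.MK
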