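import Mathlib
import Pool.Agent.H282R3.MK.Proc

set_option autoImplicit false
open MeasureTheory ProbabilityTheory Set Filter Topology
open scoped ENNReal BoundedContinuousFunction

namespace H282R3.MK

/-- window restriction -/
def Rw {S : Type} (a : ℤ) (n : ℕ) (ω : ℤ → S) : Fin (n + 1) → S := fun i => ω (a + (i : ℕ))

lemma meas_Rw {S : Type} [MeasurableSpace S] (a : ℤ) (n : ℕ) : Measurable (Rw (S := S) a n) := by
  unfold Rw
  rw [measurable_pi_iff]; intro i; exact measurable_pi_apply _

lemma cont_Rw {S : Type} [TopologicalSpace S] (a : ℤ) (n : ℕ) : Continuous (Rw (S := S) a n) := by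
  unfold Rw
  exact continuous_pi (fun i => continuous_apply _)

lemma Rw_update {S : Type} (a : ℤ) (n : ℕ) (j : ℤ) (hj : j < a ∨ a + n < j) (ω : ℤ → S) (y : S) :
    Rw a n (Function.update ω j y) = Rw a n ω := by
  funext i
  have := i.2
  unfold Rw
  rw [Function.update_of_ne (by omega)]

section

variable {S : Type} [MeasurableSpace S]
  (π : Measure S) [IsProbabilityMeasure π] (P : S → S → ℝ≥0∞)

/-- approximating measure -/
noncomputable def muN (N : ℕ) : Measure (ℤ → S) := (ref π).withDensity (Wd P (-(N : ℤ)) (2 * N))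

lemma muN_window (hP : Measurable (Function.uncurry P)) (h1 : ∀ x, ∫⁻ y, P x y ∂π = 1)
    (h2 : ∀ y, ∫⁻ x, P x y ∂π = 1) (a : ℤ) (n : ℕ)
    (g : (Fin (n + 1) → S) → ℝ≥0∞) (hg : Measurable g) (N : ℕ) (ha : -(N : ℤ) ≤ a)
    (hb : a + n ≤ N) :
    ∫⁻ ω, g (Rw a n ω) ∂(muN π P N) = ∫⁻ ω, g (Rw a n ω) * Wd P a n ω ∂(ref π) := by
  unfold muN
  have hgm : Measurable (fun ω => g (Rw a n ω)) := hg.comp (meas_Rw a n)
  rw [lintegral_withDensity_eq_lintegral_mul _ (meas_Wd P hP _ _) hgm]
  rw [← int_window π P hP h1 h2 a n (fun ω => g (Rw a n ω)) (hg.comp (meas_Rw a n))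
    (fun j hj ω y => by simp only [Rw_update a n j hj]) (a + N).toNat (N - a - n).toNat]
  have e1 : a - ((a + N).toNat : ℤ) = -(N : ℤ) := by omega
  have e2 : n + (a + N).toNat + (N - a - n).toNat = 2 * N := by omega
  rw [e1, e2]
  apply lintegral_congr
  intro ω
  simp only [Pi.mul_apply, Function.comp]
  ring

lemma muN_prob (hP : Measurable (Function.uncurry P)) (h1 : ∀ x, ∫⁻ y, P x y ∂π = 1)
    (h2 : ∀ y, ∫⁻ x, P x y ∂π = 1) (N : ℕ) : IsProbabilityMeasure (muN π P N) := by
  constructor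
  have := muN_window π P hP h1 h2 0 0 (fun _ => 1) measurable_const N (by omega) (by simp)
  simpa [Wd] using this

end

section

variable {S : Type} [MetricSpace S] [CompactSpace S] [MeasurableSpace S] [BorelSpace S]
  (π : Measure S) [IsProbabilityMeasure π] (P : S → S → ℝ≥0∞)

theorem exists_limit (hP : Measurable (Function.uncurry P)) (h1 : ∀ x, ∫⁻ y, P x y ∂π = 1)
    (h2 : ∀ y, ∫⁻ x, P x y ∂π = 1) :
    ∃ μ : Measure (ℤ → S), IsProbabilityMeasure μ ∧
      ∀ (a : ℤ) (n : ℕ) (g : (Fin (n + 1) → S) → ℝ≥0∞), Measurable g →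
        ∫⁻ ω, g (Rw a n ω) ∂μ = ∫⁻ ω, g (Rw a n ω) * Wd P a n ω ∂(ref π) := by
  have hprob := fun N => muN_prob π P hP h1 h2 N
  let u : ℕ → ProbabilityMeasure (ℤ → S) := fun N => ⟨muN π P N, hprob N⟩
  let U : Ultrafilter (ProbabilityMeasure (ℤ → S)) := Ultrafilter.map u (hyperfilter ℕ)
  let μ := U.lim
  have hU : Tendsto u (hyperfilter ℕ : Filter ℕ) (𝓝 μ) := by
    have := U.le_nhds_lim
    simpa [U, Tendsto, Ultrafilter.coe_map] using this
  refine ⟨μ, inferInstance, ?_⟩
  have key : ∀ (a : ℤ) (n : ℕ), (μ : Measure (ℤ → S)).map (Rw a n)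
      = ((ref π).withDensity (Wd P a n)).map (Rw a n) := by
    intro a n
    have hNeq : ∀ N : ℕ, a.natAbs + n ≤ N → (muN π P N).map (Rw a n)
        = ((ref π).withDensity (Wd P a n)).map (Rw a n) := by
      intro N hN
      ext s hs
      rw [Measure.map_apply (meas_Rw a n) hs, Measure.map_apply (meas_Rw a n) hs]
      rw [← lintegral_indicator_one (meas_Rw a n hs), ← lintegral_indicator_one (meas_Rw a n hs)]
      have h := muN_window π P hP h1 h2 a n (s.indicator 1) (measurable_one.indicator hs) N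
        (by omega) (by omega)
      have e : ∀ ω, ((Rw a n) ⁻¹' s).indicator (1 : (ℤ → S) → ℝ≥0∞) ω
          = s.indicator (1 : (Fin (n+1) → S) → ℝ≥0∞) (Rw a n ω) := by
        intro ω; rfl
      simp_rw [e]
      rw [h, lintegral_withDensity_eq_lintegral_mul _ (meas_Wd P hP _ _)]
      · apply lintegral_congr; intro ω; simp [mul_comm]
      · exact (measurable_one.indicator hs).comp (meas_Rw a n)
    have : IsProbabilityMeasure (((ref π).withDensity (Wd P a n)).map (Rw a n)) := by
      rw [← hNeq _ le_rfl]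
      have := hprob (a.natAbs + n)
      exact Measure.isProbabilityMeasure_map (meas_Rw a n).aemeasurable
    have : IsProbabilityMeasure ((μ : Measure (ℤ → S)).map (Rw a n)) :=
      Measure.isProbabilityMeasure_map (meas_Rw a n).aemeasurable
    apply ext_of_forall_integral_eq_of_IsFiniteMeasure
    intro f
    rw [integral_map (meas_Rw a n).aemeasurable f.continuous.aestronglyMeasurable]
    let f' : (ℤ → S) →ᵇ ℝ := f.compContinuous ⟨Rw a n, cont_Rw a n⟩
    have hlim := (ProbabilityMeasure.tendsto_iff_forall_integral_tendsto.mp hU) f'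
    have hev : ∀ᶠ N in (hyperfilter ℕ : Filter ℕ), ∫ ω, f' ω ∂(u N : Measure (ℤ → S))
        = ∫ v, f v ∂(((ref π).withDensity (Wd P a n)).map (Rw a n)) := by
      have : ∀ᶠ N in (atTop : Filter ℕ), ∫ ω, f' ω ∂(u N : Measure (ℤ → S))
        = ∫ v, f v ∂(((ref π).withDensity (Wd P a n)).map (Rw a n)) := by
        filter_upwards [eventually_ge_atTop (a.natAbs + n)] with N hN
        rw [← hNeq N hN, integral_map (meas_Rw a n).aemeasurable f.continuous.aestronglyMeasurable]
        rfl
      exact (Nat.hyperfilter_le_atTop) this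
    have hc : Tendsto (fun N => ∫ ω, f' ω ∂(u N : Measure (ℤ → S))) (hyperfilter ℕ : Filter ℕ)
        (𝓝 (∫ v, f v ∂(((ref π).withDensity (Wd P a n)).map (Rw a n)))) :=
      (tendsto_congr' hev).mpr tendsto_const_nhds
    exact tendsto_nhds_unique hlim hc
  intro a n g hg
  have hgm : Measurable (fun ω => g (Rw a n ω)) := hg.comp (meas_Rw a n)
  rw [← lintegral_map hg (meas_Rw a n), key a n, lintegral_map hg (meas_Rw a n),
    lintegral_withDensity_eq_lintegral_mul _ (meas_Wd P hP _ _) hgm]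
  apply lintegral_congr; intro ω; simp [mul_comm]

end

end H282R3.MK
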