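import Mathlib
import Pool.Agent.H282R3.MK.Limit

set_option autoImplicit false
open MeasureTheory ProbabilityTheory Set Filter Topology
open scoped ENNReal

namespace H282R3.MK

section

variable {S : Type} [MeasurableSpace S]
  (π : Measure S) [IsProbabilityMeasure π] (P : S → S → ℝ≥0∞)

/-- dependence on the window `[a,a+n]` only -/
def Dep {S : Type} (a : ℤ) (n : ℕ) (F : (ℤ → S) → ℝ≥0∞) : Prop :=
  ∀ ω ω' : ℤ → S, (∀ i, a ≤ i → i ≤ a + n → ω i = ω' i) → F ω = F ω'

/-- extension of a window to a two-sided sequence -/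
def exW {S : Type} (a : ℤ) (n : ℕ) (v : Fin (n + 1) → S) : ℤ → S :=
  fun i => v ⟨min (i - a).toNat n, by omega⟩

lemma meas_exW (a : ℤ) (n : ℕ) : Measurable (exW (S := S) a n) := by
  unfold exW; rw [measurable_pi_iff]; intro i; exact measurable_pi_apply _

omit [MeasurableSpace S] in
lemma exW_Rw (a : ℤ) (n : ℕ) (ω : ℤ → S) (i : ℤ) (h1 : a ≤ i) (h2 : i ≤ a + n) :
    exW a n (Rw a n ω) i = ω i := by
  unfold exW Rw
  congr 1
  have : (i - a).toNat ≤ n := by omega
  simp only [min_eq_left this]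
  omega

/-- the window property of a measure on two-sided sequences -/
def Win (μ : Measure (ℤ → S)) : Prop :=
  ∀ (a : ℤ) (n : ℕ) (g : (Fin (n + 1) → S) → ℝ≥0∞), Measurable g →
        ∫⁻ ω, g (Rw a n ω) ∂μ = ∫⁻ ω, g (Rw a n ω) * Wd P a n ω ∂(ref π)

variable {π P} {μ : Measure (ℤ → S)}

lemma Win.win (h : Win π P μ) (a : ℤ) (n : ℕ) (F : (ℤ → S) → ℝ≥0∞) (hF : Measurable F)
    (hd : Dep a n F) : ∫⁻ ω, F ω ∂μ = ∫⁻ ω, F ω * Wd P a n ω ∂(ref π) := by
  have e : ∀ ω, F ω = F (exW a n (Rw a n ω)) := by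
    intro ω
    apply hd
    intro i h1 h2
    rw [exW_Rw a n ω i h1 h2]
  have := h a n (fun v => F (exW a n v)) (hF.comp (meas_exW a n))
  simp only [← e] at this
  exact this

omit [MeasurableSpace S] in
lemma Dep.mono {a : ℤ} {n : ℕ} {F : (ℤ → S) → ℝ≥0∞} (h : Dep a n F) (a' : ℤ) (n' : ℕ)
    (h1 : a' ≤ a) (h2 : a + n ≤ a' + n') : Dep a' n' F := by
  intro ω ω' hh
  exact h ω ω' (fun i hi hi' => hh i (by omega) (by omega))

omit [MeasurableSpace S] in
lemma Dep.upd {a : ℤ} {n : ℕ} {F : (ℤ → S) → ℝ≥0∞} (h : Dep a n F) (j : ℤ)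
    (hj : j < a ∨ a + n < j) (ω : ℤ → S) (y : S) : F (Function.update ω j y) = F ω := by
  apply h
  intro i h1 h2
  rw [Function.update_of_ne (by omega)]

/-- shift invariance of the window integrals -/
lemma win_shift (hP : Measurable (Function.uncurry P)) (a : ℤ) (n : ℕ)
    (g : (Fin (n + 1) → S) → ℝ≥0∞) (hg : Measurable g) :
    ∫⁻ ω, g (Rw a n ω) * Wd P a n ω ∂(ref π) = ∫⁻ ω, g (Rw 0 n ω) * Wd P 0 n ω ∂(ref π) := by
  conv_rhs => rw [← ref_shift π a]
  have hgm : Measurable (fun ω => g (Rw 0 n ω) * Wd P 0 n ω) :=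
    (hg.comp (meas_Rw 0 n)).mul (meas_Wd P hP 0 n)
  rw [lintegral_map hgm (meas_sh a)]
  apply lintegral_congr
  intro ω
  have e1 : Rw 0 n (sh a ω) = Rw a n ω := by
    funext i; unfold Rw sh; congr 1; ring
  have e2 : Wd P 0 n (sh a ω) = Wd P a n ω := by
    unfold Wd sh
    apply Finset.prod_congr rfl
    intro i _
    congr 2 <;> ring
  rw [e1, e2]

theorem Win.stationary (h : Win π P μ) (hP : Measurable (Function.uncurry P))
    [IsProbabilityMeasure μ] (m : ℤ) :
    μ.map (fun ω (i : ℤ) => ω (i + m)) = μ.map (fun ω (i : ℤ) => ω i) := by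
  have hm : Measurable (fun (ω : ℤ → S) (i : ℤ) => ω (i + m)) := meas_sh m
  have e0 : μ.map (fun ω (i : ℤ) => ω i) = μ := Measure.map_id
  rw [e0]
  have : IsProbabilityMeasure (μ.map (fun ω (i : ℤ) => ω (i + m))) :=
    Measure.isProbabilityMeasure_map hm.aemeasurable
  have hfin : ∀ I : Finset ℤ, IsFiniteMeasure (μ.map (I.restrict : (ℤ → S) → _)) := by
    intro I; infer_instance
  refine IsProjectiveLimit.unique (P := fun I : Finset ℤ => μ.map (I.restrict)) ?_ (fun I => rfl)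
  intro I
  rw [Measure.map_map (Finset.measurable_restrict I) hm]
  ext s hs
  rw [Measure.map_apply ((Finset.measurable_restrict I).comp hm) hs,
    Measure.map_apply (Finset.measurable_restrict I) hs]
  -- choose a window containing I
  obtain ⟨N, hN⟩ : ∃ N : ℕ, ∀ i ∈ I, i.natAbs ≤ N :=
    ⟨I.sup Int.natAbs, fun i hi => Finset.le_sup (f := Int.natAbs) hi⟩
  let k : (Fin (2 * N + 1) → S) → (I → S) := fun v i => v ⟨((i : ℤ) + N).toNat, by
    have := hN i i.2; omega⟩
  have hk : Measurable k := by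
    rw [measurable_pi_iff]; intro i; exact measurable_pi_apply _
  let g : (Fin (2 * N + 1) → S) → ℝ≥0∞ := fun v => (k ⁻¹' s).indicator 1 v
  have hg : Measurable g := measurable_one.indicator (hk hs)
  have A1 := h (-(N : ℤ)) (2 * N) g hg
  have A2 := h (-(N : ℤ) + m) (2 * N) g hg
  rw [win_shift hP _ _ g hg] at A1 A2
  have B1 : ∫⁻ ω, g (Rw (-(N : ℤ)) (2 * N) ω) ∂μ = μ (I.restrict ⁻¹' s) := by
    rw [← lintegral_indicator_one (Finset.measurable_restrict I hs)]
    apply lintegral_congr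
    intro ω
    have : k (Rw (-(N : ℤ)) (2 * N) ω) = I.restrict ω := by
      funext i
      have := hN i i.2
      simp only [k, Rw, Finset.restrict]
      congr 1
      omega
    change s.indicator (1 : (I → S) → ℝ≥0∞) (k (Rw (-(N : ℤ)) (2 * N) ω))
      = s.indicator (1 : (I → S) → ℝ≥0∞) (I.restrict ω)
    rw [this]
  have B2 : ∫⁻ ω, g (Rw (-(N : ℤ) + m) (2 * N) ω) ∂μ
      = μ ((I.restrict ∘ fun ω (i : ℤ) => ω (i + m)) ⁻¹' s) := by
    rw [← lintegral_indicator_one (((Finset.measurable_restrict I).comp hm) hs)]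
    apply lintegral_congr
    intro ω
    have : k (Rw (-(N : ℤ) + m) (2 * N) ω) = (I.restrict ∘ fun ω (i : ℤ) => ω (i + m)) ω := by
      funext i
      have := hN i i.2
      simp only [k, Rw, Finset.restrict, Function.comp]
      congr 1
      omega
    change s.indicator (1 : (I → S) → ℝ≥0∞) (k (Rw (-(N : ℤ) + m) (2 * N) ω))
      = s.indicator (1 : (I → S) → ℝ≥0∞) ((I.restrict ∘ fun ω (i : ℤ) => ω (i + m)) ω)
    rw [this]
  rw [← B1, ← B2, A1, A2]

end

end H282R3.MK
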