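import Mathlib
import Pool.Agent.H282R3.MK.Process

set_option autoImplicit false
open MeasureTheory ProbabilityTheory Set Filter Topology
open scoped ENNReal

namespace H282R3.MK

section

variable {S : Type} [MeasurableSpace S]
  {π : Measure S} [IsProbabilityMeasure π] {P : S → S → ℝ≥0∞} {μ : Measure (ℤ → S)}

/-- transition probability -/
noncomputable def tr (π : Measure S) (P : S → S → ℝ≥0∞) (A : Set S) (x : S) : ℝ≥0∞ :=
  ∫⁻ y, P x y * A.indicator 1 y ∂π

lemma meas_tr (hP : Measurable (Function.uncurry P)) {A : Set S} (hA : MeasurableSet A) :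
    Measurable (tr π P A) := by
  unfold tr
  have : Measurable (fun q : S × S => P q.1 q.2 * A.indicator 1 q.2) :=
    hP.mul ((measurable_one.indicator hA).comp measurable_snd)
  exact this.lintegral_prod_right'

omit [IsProbabilityMeasure π] in
lemma tr_le_one (h1 : ∀ x, ∫⁻ y, P x y ∂π = 1) (A : Set S) (x : S) : tr π P A x ≤ 1 := by
  unfold tr
  rw [← h1 x]
  apply lintegral_mono
  intro y
  by_cases h : y ∈ A <;> simp [h]

/-- the past sigma-algebra -/
abbrev past (S : Type) [MeasurableSpace S] (n : ℤ) : MeasurableSpace (ℤ → S) :=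
  ⨆ (m : ℤ) (_ : m ≤ n), MeasurableSpace.comap (fun ω => ω m) inferInstance

lemma past_le (n : ℤ) : past S n ≤ MeasurableSpace.pi := by
  refine iSup₂_le fun m _ => ?_
  exact (measurable_pi_apply m).comap_le

theorem Win.past_set (h : Win π P μ) [IsProbabilityMeasure μ]
    (hP : Measurable (Function.uncurry P)) (n : ℤ) {A : Set S} (hA : MeasurableSet A)
    {s : Set (ℤ → S)} (hs : MeasurableSet[past S n] s) :
    (μ.restrict ((fun ω => ω (n + 1)) ⁻¹' A)) s = (μ.withDensity (fun ω => tr π P A (ω n))) s := by
  have hXA : MeasurableSet ((fun ω : ℤ → S => ω (n + 1)) ⁻¹' A) := measurable_pi_apply _ hA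
  have hgen := generateFrom_piiUnionInter_measurableSet
    (fun m : ℤ => MeasurableSpace.comap (fun ω : ℤ → S => ω m) inferInstance) {m | m ≤ n}
  have core : ∀ s ∈ piiUnionInter (fun m : ℤ => {s | MeasurableSet[MeasurableSpace.comap
      (fun ω : ℤ → S => ω m) inferInstance] s}) {m | m ≤ n},
      (μ.restrict ((fun ω => ω (n + 1)) ⁻¹' A)) s
        = (μ.withDensity (fun ω => tr π P A (ω n))) s := by
    rintro s ⟨t, ht, f, hf, rfl⟩
    have hf' : ∀ m ∈ t, ∃ B : Set S, MeasurableSet B ∧ (fun ω : ℤ → S => ω m) ⁻¹' B = f m := by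
      intro m hm
      exact hf m hm
    choose! B hB hBf using hf'
    have hs : MeasurableSet (⋂ x ∈ t, f x) := by
      refine Finset.measurableSet_biInter _ (fun m hm => ?_)
      rw [← hBf m hm]
      exact measurable_pi_apply m (hB m hm)
    set s : Set (ℤ → S) := ⋂ x ∈ t, f x with hsdef
    obtain ⟨N0, hN0⟩ : ∃ N : ℕ, ∀ i ∈ insert n t, i.natAbs ≤ N :=
      ⟨(insert n t).sup Int.natAbs, fun i hi => Finset.le_sup (f := Int.natAbs) hi⟩
    have hn0 : n.natAbs ≤ N0 := hN0 n (Finset.mem_insert_self _ _)
    obtain ⟨k, hk⟩ : ∃ k : ℕ, -(N0 : ℤ) + k = n := ⟨(n + N0).toNat, by omega⟩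
    let F : (ℤ → S) → ℝ≥0∞ := s.indicator 1
    have hF : Measurable F := measurable_one.indicator hs
    have hFd : Dep (-(N0 : ℤ)) k F := by
      intro ω ω' hh
      have : ω ∈ s ↔ ω' ∈ s := by
        simp only [hsdef, mem_iInter]
        constructor
        · intro h0 m hm
          have h2 := h0 m hm
          rw [← hBf m hm] at h2 ⊢
          have hmn : m ≤ n := ht hm
          have hm0 := hN0 m (Finset.mem_insert_of_mem hm)
          show ω' m ∈ B m
          rw [← hh m (by omega) (by omega)]
          exact h2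
        · intro h0 m hm
          have h2 := h0 m hm
          rw [← hBf m hm] at h2 ⊢
          have hmn : m ≤ n := ht hm
          have hm0 := hN0 m (Finset.mem_insert_of_mem hm)
          show ω m ∈ B m
          rw [hh m (by omega) (by omega)]
          exact h2
      by_cases h3 : ω ∈ s
      · have h4 := this.mp h3
        simp only [F, indicator_of_mem h3, indicator_of_mem h4, Pi.one_apply]
      · have h4 := fun h5 => h3 (this.mpr h5)
        simp only [F, indicator_of_notMem h3, indicator_of_notMem h4]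
    let g : S → ℝ≥0∞ := A.indicator 1
    have hg : Measurable g := measurable_one.indicator hA
    have hFn : -(N0 : ℤ) + k + 1 = n + 1 := by rw [hk]
    -- left side
    have L : (μ.restrict ((fun ω => ω (n + 1)) ⁻¹' A)) s
        = ∫⁻ ω, F ω * g (ω (n + 1)) ∂μ := by
      rw [Measure.restrict_apply hs, ← lintegral_indicator_one (hs.inter hXA)]
      apply lintegral_congr
      intro ω
      by_cases h3 : ω ∈ s <;> by_cases h4 : ω (n + 1) ∈ A <;>
        simp [F, g, h3, h4, indicator]
    have R : (μ.withDensity (fun ω => tr π P A (ω n))) s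
        = ∫⁻ ω, F ω * tr π P A (ω n) ∂μ := by
      rw [withDensity_apply _ hs, ← lintegral_indicator hs]
      apply lintegral_congr
      intro ω
      by_cases h3 : ω ∈ s <;> simp [F, h3]
    rw [L, R]
    rw [h.win (-(N0 : ℤ)) (k + 1) (fun ω => F ω * g (ω (n + 1)))
      (hF.mul (hg.comp (measurable_pi_apply _))) ?_,
      h.win (-(N0 : ℤ)) k (fun ω => F ω * tr π P A (ω n))
      (hF.mul ((meas_tr hP hA).comp (measurable_pi_apply _))) ?_]
    · have := int_right π P hP (-(N0 : ℤ)) k F hF
        (fun ω y => hFd.upd _ (Or.inr (by omega)) ω y) g hg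
      rw [hk] at this
      exact this
    · intro ω ω' hh
      show F ω * tr π P A (ω n) = F ω' * tr π P A (ω' n)
      rw [hFd ω ω' hh, hh n (by omega) (by omega)]
    · intro ω ω' hh
      show F ω * g (ω (n + 1)) = F ω' * g (ω' (n + 1))
      rw [hFd ω ω' (fun i h1 h2 => hh i h1 (by push_cast; omega)),
        hh (n + 1) (by omega) (by push_cast; omega)]
  refine ext_on_measurableSpace_of_generate_finite MeasurableSpace.pi
    (piiUnionInter (fun m : ℤ => {s | MeasurableSet[MeasurableSpace.comap
      (fun ω : ℤ → S => ω m) inferInstance] s}) {m | m ≤ n}) core (past_le n) ?_ ?_ ?_ hs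
  · rw [hgen]
    rfl
  · apply isPiSystem_piiUnionInter
    intro m
    exact @MeasurableSpace.isPiSystem_measurableSet _ (MeasurableSpace.comap
      (fun ω : ℤ → S => ω m) inferInstance)
  · apply core
    exact ⟨∅, by simp, fun _ => univ, by simp, by simp⟩

end

end H282R3.MK
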