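import Mathlib
import Pool.Agent.H282R3.MK.Markov

set_option autoImplicit false
open MeasureTheory ProbabilityTheory Set Filter Topology
open scoped ENNReal

namespace H282R3.MK

section

variable {S : Type} [MeasurableSpace S]
  {π : Measure S} [IsProbabilityMeasure π] {P : S → S → ℝ≥0∞} {μ : Measure (ℤ → S)}

theorem Win.condExp_eq (h : Win π P μ) [IsProbabilityMeasure μ]
    (hP : Measurable (Function.uncurry P))
    (h1 : ∀ x, ∫⁻ y, P x y ∂π = 1) (n : ℤ) {A : Set S} (hA : MeasurableSet A)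
    (m : MeasurableSpace (ℤ → S)) (hm : m ≤ past S n)
    (hm' : MeasurableSpace.comap (fun ω : ℤ → S => ω n) inferInstance ≤ m) :
    (fun ω => (tr π P A (ω n)).toReal) =ᵐ[μ]
      MeasureTheory.condExp m μ (Set.indicator ((fun ω => ω (n + 1)) ⁻¹' A) (fun _ => (1 : ℝ))) := by
  have hmle : m ≤ MeasurableSpace.pi := hm.trans (past_le n)
  have hXA : MeasurableSet[MeasurableSpace.pi] ((fun ω : ℤ → S => ω (n + 1)) ⁻¹' A) :=
    @measurable_pi_apply ℤ (fun _ => S) _ (n + 1) A hA
  have htm : Measurable (tr π P A) := meas_tr hP hA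
  have hmeas : Measurable[MeasurableSpace.pi] (fun ω : ℤ → S => tr π P A (ω n)) :=
    htm.comp (@measurable_pi_apply ℤ (fun _ => S) _ n)
  have hle : ∀ ω : ℤ → S, tr π P A (ω n) ≤ 1 := fun ω => tr_le_one h1 A _
  have hint : Integrable (fun ω : ℤ → S => (tr π P A (ω n)).toReal) μ := by
    refine Integrable.of_bound (C := 1) hmeas.ennreal_toReal.aestronglyMeasurable ?_
    refine ae_of_all _ (fun ω => ?_)
    rw [Real.norm_of_nonneg ENNReal.toReal_nonneg]
    exact ENNReal.toReal_le_of_le_ofReal zero_le_one (by simpa using hle ω)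
  refine ae_eq_condExp_of_forall_setIntegral_eq hmle ?_ ?_ ?_ ?_
  · exact (integrable_const (1 : ℝ)).indicator hXA
  · intro s _ _
    exact hint.integrableOn
  · intro s hs _
    have hs' : MeasurableSet[MeasurableSpace.pi] s := hmle s hs
    have key := h.past_set hP n hA (hm s hs)
    rw [integral_indicator hXA, Measure.restrict_restrict hXA]
    rw [setIntegral_const, smul_eq_mul, mul_one]
    rw [Measure.restrict_apply hs', withDensity_apply _ hs'] at key
    rw [integral_toReal hmeas.aemeasurable (ae_of_all _ (fun ω => (hle ω).trans_lt ENNReal.one_lt_top))]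
    rw [← key, inter_comm]
    rfl
  · refine Measurable.aestronglyMeasurable ?_
    refine Measurable.ennreal_toReal ?_
    refine htm.comp ?_
    intro B hB
    exact hm' _ ⟨B, hB, rfl⟩

theorem Win.markov (h : Win π P μ) [IsProbabilityMeasure μ]
    (hP : Measurable (Function.uncurry P))
    (h1 : ∀ x, ∫⁻ y, P x y ∂π = 1) (n : ℤ) (A : Set S) (hA : MeasurableSet A) :
    MeasureTheory.condExp (⨆ (m : ℤ) (_ : m ≤ n), MeasurableSpace.comap (fun ω : ℤ → S => ω m) inferInstance) μ
          (Set.indicator ((fun ω => ω (n + 1)) ⁻¹' A) (fun _ => (1 : ℝ)))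
        =ᵐ[μ] MeasureTheory.condExp (MeasurableSpace.comap (fun ω : ℤ → S => ω n) inferInstance) μ
          (Set.indicator ((fun ω => ω (n + 1)) ⁻¹' A) (fun _ => (1 : ℝ))) := by
  have hc : MeasurableSpace.comap (fun ω : ℤ → S => ω n) inferInstance ≤ past S n :=
    le_iSup₂_of_le n le_rfl le_rfl
  have e1 := h.condExp_eq hP h1 n hA (past S n) le_rfl hc
  have e2 := h.condExp_eq hP h1 n hA _ hc le_rfl
  exact e1.symm.trans e2

/-- two-step law is the product law -/
theorem Win.law02 (h : Win π P μ) [IsProbabilityMeasure μ]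
    (hP : Measurable (Function.uncurry P))
    (h3 : ∀ x z, ∫⁻ y, P x y * P y z ∂π = 1) :
    μ.map (fun ω => (ω 0, ω 2)) = π.prod π := by
  have hm2 : Measurable (fun ω : ℤ → S => (ω 0, ω 2)) :=
    (measurable_pi_apply 0).prodMk (measurable_pi_apply 2)
  refine (Measure.prod_eq (fun A B hA hB => ?_)).symm
  rw [Measure.map_apply hm2 (hA.prod hB)]
  let F : (ℤ → S) → ℝ≥0∞ := fun ω => A.indicator 1 (ω 0) * B.indicator 1 (ω 2)
  have hA1 : Measurable (A.indicator (1 : S → ℝ≥0∞)) := measurable_one.indicator hA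
  have hB1 : Measurable (B.indicator (1 : S → ℝ≥0∞)) := measurable_one.indicator hB
  have hF : Measurable F := (hA1.comp (measurable_pi_apply _)).mul (hB1.comp (measurable_pi_apply _))
  have e : μ ((fun ω : ℤ → S => (ω 0, ω 2)) ⁻¹' A ×ˢ B) = ∫⁻ ω, F ω ∂μ := by
    rw [← lintegral_indicator_one (hm2 (hA.prod hB))]
    apply lintegral_congr
    intro ω
    by_cases h3 : ω 0 ∈ A <;> by_cases h4 : ω 2 ∈ B <;> simp [F, h3, h4, indicator]
  rw [e, h.win 0 2 F hF (by
    intro ω ω' hh
    show A.indicator 1 (ω 0) * B.indicator 1 (ω 2) = A.indicator 1 (ω' 0) * B.indicator 1 (ω' 2)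
    rw [hh 0 (by omega) (by omega), hh 2 (by omega) (by norm_num)])]
  have hW : ∀ ω, Wd P 0 2 ω = P (ω 0) (ω 1) * P (ω 1) (ω 2) := by
    intro ω; simp [Wd, Finset.prod_range_succ]
  have hFW : Measurable (fun ω => F ω * Wd P 0 2 ω) := hF.mul (meas_Wd P hP 0 2)
  rw [resample π 1 _ hFW]
  have e2 : ∀ ω : ℤ → S, ∫⁻ y, F (Function.update ω 1 y) * Wd P 0 2 (Function.update ω 1 y) ∂π
      = A.indicator 1 (ω 0) * B.indicator 1 (ω 2) := by
    intro ω
    have : ∀ y, F (Function.update ω 1 y) * Wd P 0 2 (Function.update ω 1 y)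
        = (A.indicator 1 (ω 0) * B.indicator 1 (ω 2)) * (P (ω 0) y * P y (ω 2)) := by
      intro y
      rw [hW]
      simp only [F]
      rw [Function.update_self, Function.update_of_ne (by norm_num), Function.update_of_ne (by norm_num)]
    simp_rw [this]
    rw [lintegral_const_mul, h3, mul_one]
    exact (hP.comp (measurable_const.prodMk measurable_id)).mul
      (hP.comp (measurable_id.prodMk measurable_const))
  simp_rw [e2]
  -- independence of coordinates in the reference measure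
  have e3 : ∀ ω : ℤ → S, A.indicator (1 : S → ℝ≥0∞) (ω 0) * B.indicator 1 (ω 2)
      = (Set.pi (({0, 2} : Finset ℤ) : Set ℤ) (fun i => if i = 0 then A else B)).indicator 1 ω := by
    intro ω
    by_cases h3 : ω 0 ∈ A <;> by_cases h4 : ω 2 ∈ B <;> simp [h3, h4, indicator]
  simp_rw [e3]
  have hAB : ∀ i ∈ ({0, 2} : Finset ℤ), MeasurableSet ((fun i : ℤ => if i = 0 then A else B) i) := by
    intro i _; by_cases hi : i = 0 <;> simp [hi, hA, hB]
  rw [lintegral_indicator_one (MeasurableSet.pi (Finset.countable_toSet _) (fun i hi => hAB i hi))]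
  unfold ref
  rw [Measure.infinitePi_pi _ hAB]
  simp

theorem Win.indep (h : Win π P μ) [IsProbabilityMeasure μ]
    (hP : Measurable (Function.uncurry P))
    (h3 : ∀ x z, ∫⁻ y, P x y * P y z ∂π = 1) :
    IndepFun (fun ω : ℤ → S => ω 0) (fun ω => ω 2) μ := by
  have h02 := h.law02 hP h3
  have m0 : Measurable (fun ω : ℤ → S => ω 0) := measurable_pi_apply 0
  have m2 : Measurable (fun ω : ℤ → S => ω 2) := measurable_pi_apply 2
  rw [indepFun_iff_map_prod_eq_prod_map_map m0.aemeasurable m2.aemeasurable]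
  have a0 : μ.map (fun ω : ℤ → S => ω 0) = π := by
    have := congrArg (Measure.map Prod.fst) h02
    rw [Measure.map_map measurable_fst (m0.prodMk m2), Measure.map_fst_prod] at this
    simpa [Function.comp_def] using this
  have a2 : μ.map (fun ω : ℤ → S => ω 2) = π := by
    have := congrArg (Measure.map Prod.snd) h02
    rw [Measure.map_map measurable_snd (m0.prodMk m2), Measure.map_snd_prod] at this
    simpa [Function.comp_def] using this
  rw [a0, a2]
  exact h02

theorem Win.sep (h : Win π P μ) [IsProbabilityMeasure μ]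
    (hP : Measurable (Function.uncurry P)) (D : Set (S × S)) (hD : MeasurableSet D)
    (h0 : ∀ x y, (x, y) ∉ D → P x y = 0) :
    ∀ᵐ ω ∂μ, (ω 0, ω 1) ∈ D := by
  have m01 : Measurable (fun ω : ℤ → S => (ω 0, ω 1)) :=
    (measurable_pi_apply 0).prodMk (measurable_pi_apply 1)
  have : μ ((fun ω : ℤ → S => (ω 0, ω 1)) ⁻¹' Dᶜ) = 0 := by
    have hD1 : Measurable (Dᶜ.indicator (1 : S × S → ℝ≥0∞)) := measurable_one.indicator hD.compl
    rw [← lintegral_indicator_one (m01 hD.compl)]
    have e : ∀ ω : ℤ → S, ((fun ω : ℤ → S => (ω 0, ω 1)) ⁻¹' Dᶜ).indicator (1 : (ℤ → S) → ℝ≥0∞) ω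
        = Dᶜ.indicator 1 (ω 0, ω 1) := fun ω => rfl
    simp_rw [e]
    rw [h.win 0 1 (fun ω => Dᶜ.indicator 1 (ω 0, ω 1)) (hD1.comp m01) (by
      intro ω ω' hh
      show Dᶜ.indicator 1 (ω 0, ω 1) = Dᶜ.indicator 1 (ω' 0, ω' 1)
      rw [hh 0 (by omega) (by omega), hh 1 (by omega) (by norm_num)])]
    have hm : Measurable (fun ω : ℤ → S => Dᶜ.indicator 1 (ω 0, ω 1) * Wd P 0 1 ω) :=
      (hD1.comp m01).mul (meas_Wd P hP 0 1)
    rw [lintegral_eq_zero_iff hm]
    refine ae_of_all _ (fun ω => ?_)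
    by_cases hd : (ω 0, ω 1) ∈ D
    · simp [hd]
    · simp [Wd, h0 _ _ hd]
  rw [ae_iff]
  exact this

end

/-- the general theorem -/
theorem process_of_kernel {S : Type} [MetricSpace S] [CompactSpace S] [MeasurableSpace S]
    [BorelSpace S] (π : Measure S) [IsProbabilityMeasure π] (P : S → S → ℝ≥0∞)
    (hP : Measurable (Function.uncurry P)) (h1 : ∀ x, ∫⁻ y, P x y ∂π = 1)
    (h2 : ∀ y, ∫⁻ x, P x y ∂π = 1) (h3 : ∀ x z, ∫⁻ y, P x y * P y z ∂π = 1)
    (ε : ℝ) (h0 : ∀ x y, dist x y < ε → P x y = 0) :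
    ∃ μ : Measure (ℤ → S), IsProbabilityMeasure μ ∧
      (∀ n : ℤ, μ.map (fun ω (i : ℤ) => ω (i + n)) = μ.map (fun ω (i : ℤ) => ω i)) ∧
      (∀ (n : ℤ) (A : Set S), MeasurableSet A →
        MeasureTheory.condExp (⨆ (m : ℤ) (_ : m ≤ n),
          MeasurableSpace.comap (fun ω : ℤ → S => ω m) inferInstance) μ
          (Set.indicator ((fun ω => ω (n + 1)) ⁻¹' A) (fun _ => (1 : ℝ)))
        =ᵐ[μ] MeasureTheory.condExp (MeasurableSpace.comap (fun ω : ℤ → S => ω n) inferInstance) μ
          (Set.indicator ((fun ω => ω (n + 1)) ⁻¹' A) (fun _ => (1 : ℝ)))) ∧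
      IndepFun (fun ω : ℤ → S => ω 0) (fun ω => ω 2) μ ∧
      ∀ᵐ ω ∂μ, ε ≤ dist (ω 0) (ω 1) := by
  obtain ⟨μ, hμ, hw⟩ := exists_limit π P hP h1 h2
  have hwin : Win π P μ := hw
  refine ⟨μ, hμ, fun n => hwin.stationary hP n, fun n A hA => hwin.markov hP h1 n A hA,
    hwin.indep hP h3, ?_⟩
  have := hwin.sep hP {q : S × S | ε ≤ dist q.1 q.2}
    (measurableSet_le measurable_const (measurable_dist)) (fun x y hxy => h0 x y (by simpa using hxy))
  exact this

end H282R3.MK
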