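import Mathlib
import Pool.Agent.H282R3.MK.Pk
import Pool.Agent.H282R3.MK.Props

set_option autoImplicit false
open MeasureTheory ProbabilityTheory Set Filter Topology
open scoped ENNReal

namespace H282R3.MK

/-- reference measure on the state space -/
noncomputable def piS : Measure St := (unif Co).prod nu

instance : IsProbabilityMeasure piS := by unfold piS; infer_instance

lemma card_Co : Fintype.card Co = 64 := by decide

lemma int_cont {f : St → ℝ} (hf : Continuous f) : Integrable f piS :=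
  hf.integrable_of_hasCompactSupport (HasCompactSupport.of_compactSpace f)

lemma int_piS (f : St → ℝ) (hf : Continuous f) :
    ∫ y, f y ∂piS = (1 / 64) * ∑ c, ∫ ρ, f (c, ρ) ∂nu := by
  have hi := int_cont hf
  unfold piS at *
  rw [integral_prod _ hi, integral_unif, card_Co]
  norm_num

lemma slice_cont {f : St → ℝ} (hf : Continuous f) (c : Co) : Continuous (fun ρ => f (c, ρ)) :=
  hf.comp (continuous_const.prodMk continuous_id)

lemma gen_slice (F : St → St → ℝ) (h : Continuous (fun q : St × St => F q.1 q.2)) (x : St) :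
    Continuous (fun y => F x y) :=
  h.comp (continuous_const.prodMk continuous_id)

lemma gen_slice_meas (F : St → St → ℝ) (h : Measurable (fun q : St × St => F q.1 q.2)) (x : St) :
    Measurable (fun y => F x y) :=
  h.comp (measurable_const.prodMk measurable_id)

lemma tm_cont' (τ : ℝ) (n : ℕ) (x : St) : Continuous (fun y => tm τ n x y) :=
  gen_slice (tm τ n) (tm_cont τ n) x

lemma pM_cont' (τ : ℝ) (n : ℕ) (x : St) : Continuous (fun y => pM τ n x y) :=
  gen_slice (pM τ n) (pM_cont τ n) x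

lemma slice_int (x z : St) (c : Co) (M : ℕ) :
    ∫ ρ, pM 1 (M + 1) x (c, ρ) * pM (-1) (M + 1) z (c, ρ) ∂nu
      = ∑ n ∈ Finset.range (M + 1),
          qn x z n * (U 1 x c n * U (-1) z c n + V 1 x c * V (-1) z c * dl x.1.1 z.1.1)
        + ∑ n ∈ Finset.range M, qn x z n *
          (U 1 x c (n + 1) * V (-1) z c * ((1 / 16) * th x.1 z.1.1 (x.2 n))
            + V 1 x c * U (-1) z c (n + 1) * ((1 / 16) * th z.1 x.1.1 (z.2 n))) := by
  have e0 : ∀ ρ, pM 1 (M + 1) x (c, ρ) * pM (-1) (M + 1) z (c, ρ)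
      = ∑ n ∈ Finset.range (M + 1), ∑ l ∈ Finset.range (M + 1),
        (Tn n x (c, ρ) * kap 1 n x (c, ρ)) * (Tn l z (c, ρ) * kap (-1) l z (c, ρ)) := by
    intro ρ
    unfold pM tm
    rw [Finset.sum_mul_sum]
  simp_rw [e0]
  have hint : ∀ n l : ℕ, Integrable (fun ρ => (Tn n x (c, ρ) * kap 1 n x (c, ρ))
      * (Tn l z (c, ρ) * kap (-1) l z (c, ρ))) nu := by
    intro n l
    exact int_of_cont ((slice_cont (tm_cont' 1 n x) c).mul (slice_cont (tm_cont' (-1) l z) c))
  rw [integral_finsetSum _ (fun n _ => integrable_finsetSum _ (fun l _ => hint n l))]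
  have e1 : ∀ n ∈ Finset.range (M + 1), ∫ ρ, ∑ l ∈ Finset.range (M + 1),
      (Tn n x (c, ρ) * kap 1 n x (c, ρ)) * (Tn l z (c, ρ) * kap (-1) l z (c, ρ)) ∂nu
      = ∑ l ∈ Finset.range (M + 1), ((if n = l then qn x z n *
          (U 1 x c n * U (-1) z c n + V 1 x c * V (-1) z c * dl x.1.1 z.1.1) else 0)
        + (if n = l + 1 then qn x z l * (U 1 x c (l + 1) * V (-1) z c *
            ((1 / 16) * th x.1 z.1.1 (x.2 l))) else 0)
        + (if l = n + 1 then qn x z n * (V 1 x c * U (-1) z c (n + 1) *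
            ((1 / 16) * th z.1 x.1.1 (z.2 n))) else 0)) := by
    intro n _
    rw [integral_finsetSum _ (fun l _ => hint n l)]
    refine Finset.sum_congr rfl (fun l _ => ?_)
    exact term_int x z c n l 1 (-1)
  rw [Finset.sum_congr rfl e1]
  simp only [Finset.sum_add_distrib]
  rw [sum_shift M (fun l => qn x z l * (U 1 x c (l + 1) * V (-1) z c *
            ((1 / 16) * th x.1 z.1.1 (x.2 l))))]
  have e3 : ∑ n ∈ Finset.range (M + 1), ∑ l ∈ Finset.range (M + 1), (if l = n + 1 then qn x z n *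
      (V 1 x c * U (-1) z c (n + 1) * ((1 / 16) * th z.1 x.1.1 (z.2 n))) else 0)
      = ∑ n ∈ Finset.range M, qn x z n *
      (V 1 x c * U (-1) z c (n + 1) * ((1 / 16) * th z.1 x.1.1 (z.2 n))) := by
    rw [Finset.sum_comm]
    exact sum_shift M (fun n => qn x z n *
      (V 1 x c * U (-1) z c (n + 1) * ((1 / 16) * th z.1 x.1.1 (z.2 n))))
  rw [e3]
  have e2 : ∑ n ∈ Finset.range (M + 1), ∑ l ∈ Finset.range (M + 1), (if n = l then qn x z n *
          (U 1 x c n * U (-1) z c n + V 1 x c * V (-1) z c * dl x.1.1 z.1.1) else 0)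
      = ∑ n ∈ Finset.range (M + 1), qn x z n *
          (U 1 x c n * U (-1) z c n + V 1 x c * V (-1) z c * dl x.1.1 z.1.1) := by
    refine Finset.sum_congr rfl (fun n hn => ?_)
    rw [Finset.sum_ite_eq, if_pos hn]
  rw [e2, add_assoc, ← Finset.sum_add_distrib]
  congr 1
  refine Finset.sum_congr rfl (fun n _ => by ring)

lemma full_int (x z : St) (M : ℕ) :
    ∫ y, pM 1 (M + 1) x y * pM (-1) (M + 1) z y ∂piS
      = (1 / 64) * (∑ n ∈ Finset.range (M + 1), qn x z n *
          (∑ c : Co, (U 1 x c n * U (-1) z c n + V 1 x c * V (-1) z c * dl x.1.1 z.1.1))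
        + ∑ n ∈ Finset.range M, qn x z n *
          (∑ c : Co, (U 1 x c (n + 1) * V (-1) z c * ((1 / 16) * th x.1 z.1.1 (x.2 n))
            + V 1 x c * U (-1) z c (n + 1) * ((1 / 16) * th z.1 x.1.1 (z.2 n))))) := by
  have hc : Continuous (fun y => pM 1 (M + 1) x y * pM (-1) (M + 1) z y) :=
    (pM_cont' 1 (M + 1) x).mul (pM_cont' (-1) (M + 1) z)
  rw [int_piS _ hc]
  congr 1
  simp_rw [slice_int]
  rw [Finset.sum_add_distrib]
  congr 1
  · rw [Finset.sum_comm]
    exact Finset.sum_congr rfl (fun n _ => (Finset.mul_sum _ _ _).symm)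
  · rw [Finset.sum_comm]
    exact Finset.sum_congr rfl (fun n _ => (Finset.mul_sum _ _ _).symm)

lemma qn_succ (x z : St) (n : ℕ) : qn x z (n + 1) = qn x z n * dot (vec x n) (vec z n) := by
  unfold qn; rw [Finset.prod_range_succ]

lemma qn_zero (x z : St) : qn x z 0 = 1 := by simp [qn]

lemma abs_qn (x z : St) (n : ℕ) : |qn x z n| ≤ (1 / 16) ^ n := by
  unfold qn
  rw [Finset.abs_prod]
  calc ∏ j ∈ Finset.range n, |dot (vec x j) (vec z j)|
      ≤ ∏ _j ∈ Finset.range n, (1 / 16 : ℝ) := by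
        refine Finset.prod_le_prod (fun _ _ => abs_nonneg _) (fun j _ => ?_)
        rw [dot_vec, abs_mul]
        have : |∑ a : Al, th x.1 a (x.2 j) * th z.1 a (z.2 j)| ≤ 16 := by
          refine (Finset.abs_sum_le_sum_abs _ _).trans ?_
          simp only [abs_mul, abs_th, mul_one, Finset.sum_const, card_Al]
          norm_num
        rw [abs_of_nonneg (by norm_num : (0:ℝ) ≤ 1 / 256)]
        linarith
    _ = (1 / 16) ^ n := by simp

lemma abs_hn (x z : St) (n : ℕ) : |hn x z n| ≤ 1 := by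
  unfold hn
  rw [abs_mul]
  have : |sg z.1.2.2 * th x.1 z.1.1 (x.2 n) - sg x.1.2.2 * th z.1 x.1.1 (z.2 n)| ≤ 2 := by
    refine (abs_sub _ _).trans ?_
    rw [abs_mul, abs_mul, abs_sg, abs_sg, abs_th, abs_th]
    norm_num
  rw [abs_of_nonneg (by norm_num : (0:ℝ) ≤ 1 / 2)]
  linarith

lemma full_close (x z : St) (M : ℕ) :
    |∫ y, pM 1 (M + 1) x y * pM (-1) (M + 1) z y ∂piS - 1| ≤ (1 / 16) ^ M := by
  rw [full_int]
  by_cases h : x.1.2.1 = z.1.2.1
  · simp_rw [Bsame x z _ h, Dsame x z _ h, mul_zero, Finset.sum_const_zero, add_zero]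
    have tel : ∀ M : ℕ, ∑ n ∈ Finset.range (M + 1), qn x z n *
        (32 * (1 + (if n = 0 then 1 else 0) - dot (vec x n) (vec z n)))
        = 64 - 32 * qn x z (M + 1) := by
      intro M
      induction M with
      | zero =>
        rw [Finset.sum_range_one, qn_succ, qn_zero]
        simp only [if_true]
        ring
      | succ M ih =>
        rw [Finset.sum_range_succ, ih, qn_succ x z (M + 1)]
        have : (M + 1 = 0) = False := by simp
        simp only [this, if_false]
        ring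
    rw [tel]
    have := abs_qn x z (M + 1)
    have h2 : (1 / 16 : ℝ) ^ (M + 1) ≤ (1 / 16) ^ M :=
      pow_le_pow_of_le_one (by norm_num) (by norm_num) (by omega)
    rw [show (1 / 64 : ℝ) * (64 - 32 * qn x z (M + 1)) - 1 = -(1 / 2) * qn x z (M + 1) by ring,
      abs_mul]
    rw [show |(-(1 / 2) : ℝ)| = 1 / 2 by norm_num [abs_neg]]
    have h0 := abs_nonneg (qn x z (M + 1))
    linarith
  · simp_rw [Bdiff x z _ h, Ddiff x z _ h]
    rw [Finset.sum_range_succ]
    have e : ∑ n ∈ Finset.range M, qn x z n * (64 * (if n = 0 then 1 else 0) + hn x z n)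
        + qn x z M * (64 * (if M = 0 then 1 else 0) + hn x z M)
        + ∑ n ∈ Finset.range M, qn x z n * -hn x z n
        = ∑ n ∈ Finset.range (M + 1), qn x z n * (64 * (if n = 0 then 1 else 0))
          + qn x z M * hn x z M := by
      rw [Finset.sum_range_succ]
      simp only [mul_add, Finset.sum_add_distrib, mul_neg, Finset.sum_neg_distrib]
      ring
    rw [e]
    have e2 : ∑ n ∈ Finset.range (M + 1), qn x z n * (64 * (if n = 0 then (1:ℝ) else 0)) = 64 := by
      rw [Finset.sum_range_succ']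
      simp [qn_zero]
    rw [e2]
    rw [show (1 / 64 : ℝ) * (64 + qn x z M * hn x z M) - 1 = (1 / 64) * (qn x z M * hn x z M) by ring,
      abs_mul, abs_mul]
    have h1 := abs_qn x z M
    have h2 := abs_hn x z M
    have h3 : |qn x z M| * |hn x z M| ≤ (1 / 16) ^ M * 1 :=
      mul_le_mul h1 h2 (abs_nonneg _) (by positivity)
    rw [abs_of_nonneg (by norm_num : (0:ℝ) ≤ 1 / 64)]
    have h4 : (0:ℝ) ≤ (1 / 16) ^ M := by positivity
    linarith

lemma pk_meas (τ : ℝ) (hτ : |τ| = 1) : Measurable (fun q : St × St => pk τ q.1 q.2) := by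
  refine measurable_of_tendsto_metrizable (f := fun M (q : St × St) => pM τ (M + 1) q.1 q.2)
    (fun M => (pM_cont τ (M + 1)).measurable) ?_
  rw [tendsto_pi_nhds]
  intro q
  exact pM_tendsto τ hτ q.1 q.2

lemma pk_meas' (τ : ℝ) (hτ : |τ| = 1) (x : St) : Measurable (fun y => pk τ x y) :=
  gen_slice_meas (pk τ) (pk_meas τ hτ) x

lemma abs_pk_le (τ : ℝ) (hτ : |τ| = 1) (x y : St) : |pk τ x y| ≤ 4 :=
  le_of_tendsto' (pM_tendsto τ hτ x y).abs (fun M => abs_pM_le τ hτ (M + 1) x y)

lemma int_pp (x z : St) : ∫ y, pk 1 x y * pk (-1) z y ∂piS = 1 := by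
  have t1 : Tendsto (fun M => ∫ y, pM 1 (M + 1) x y * pM (-1) (M + 1) z y ∂piS) atTop
      (𝓝 (∫ y, pk 1 x y * pk (-1) z y ∂piS)) := by
    refine tendsto_integral_of_dominated_convergence (fun _ => 16) ?_ (integrable_const _) ?_ ?_
    · intro M
      exact ((pM_cont' 1 (M + 1) x).mul (pM_cont' (-1) (M + 1) z)).aestronglyMeasurable
    · intro M
      refine ae_of_all _ (fun y => ?_)
      rw [Real.norm_eq_abs, abs_mul]
      have h1 := abs_pM_le 1 (by simp) (M + 1) x y
      have h2 := abs_pM_le (-1) (by simp) (M + 1) z y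
      nlinarith [abs_nonneg (pM 1 (M + 1) x y), abs_nonneg (pM (-1) (M + 1) z y)]
    · refine ae_of_all _ (fun y => ?_)
      exact (pM_tendsto 1 (by simp) x y).mul (pM_tendsto (-1) (by simp) z y)
  have t2 : Tendsto (fun M => ∫ y, pM 1 (M + 1) x y * pM (-1) (M + 1) z y ∂piS) atTop (𝓝 1) := by
    rw [tendsto_iff_norm_sub_tendsto_zero]
    refine squeeze_zero (fun M => norm_nonneg _) (fun M => full_close x z M) ?_
    exact tendsto_pow_atTop_nhds_zero_of_lt_one (by norm_num) (by norm_num)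
  exact tendsto_nhds_unique t1 t2

lemma slice_one (τ : ℝ) (x : St) (c : Co) (M : ℕ) :
    ∫ ρ, pM τ (M + 1) x (c, ρ) ∂nu = U τ x c 0 := by
  unfold pM
  have hint : ∀ n : ℕ, Integrable (fun ρ => tm τ n x (c, ρ)) nu := fun n =>
    int_of_cont (slice_cont (tm_cont' τ n x) c)
  rw [integral_finsetSum _ (fun n _ => hint n)]
  have e : ∀ n : ℕ, ∫ ρ, tm τ n x (c, ρ) ∂nu = if n = 0 then U τ x c 0 else 0 := by
    intro n
    unfold tm
    simp_rw [term_eq]
    have hW : ∀ (v : ℕ → Al → ℝ) (n : ℕ), ∫ ρ, W c v n ρ ∂nu = if n = 0 then 1 else 0 := by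
      intro v n
      have := W_orth c v v n 0
      simp only [W, Finset.range_zero, Finset.prod_empty, mul_one] at this ⊢
      rw [this]
      by_cases h : n = 0
      · subst h; simp
      · simp [h]
    rw [integral_add ((int_of_cont (W_cont c _ _)).const_mul _)
      ((int_of_cont (W_cont c _ _)).const_mul _), integral_const_mul, integral_const_mul, hW, hW]
    by_cases h : n = 0
    · subst h; simp
    · simp [h]
  simp_rw [e]
  simp

lemma sum_U (τ : ℝ) (x : St) : ∑ c : Co, U τ x c 0 = 64 := by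
  rw [sum_Co]
  obtain ⟨⟨α, e, s⟩, ρ⟩ := x
  have per : ∀ a : Al, U τ (((α, e, s), ρ) : St) (a, false, false) 0
      + U τ (((α, e, s), ρ) : St) (a, false, true) 0
      + U τ (((α, e, s), ρ) : St) (a, true, false) 0
      + U τ (((α, e, s), ρ) : St) (a, true, true) 0 = 4 := by
    intro a
    cases e <;> simp [U, sg_f, sg_t] <;> ring
  rw [Finset.sum_congr rfl (fun a _ => per a)]
  simp only [Finset.sum_const, card_Al]
  norm_num

lemma int_one (τ : ℝ) (hτ : |τ| = 1) (x : St) : ∫ y, pk τ x y ∂piS = 1 := by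
  have t1 : Tendsto (fun M => ∫ y, pM τ (M + 1) x y ∂piS) atTop
      (𝓝 (∫ y, pk τ x y ∂piS)) := by
    refine tendsto_integral_of_dominated_convergence (fun _ => 4) ?_ (integrable_const _) ?_ ?_
    · intro M
      exact (pM_cont' τ (M + 1) x).aestronglyMeasurable
    · intro M
      exact ae_of_all _ (fun y => abs_pM_le τ hτ (M + 1) x y)
    · exact ae_of_all _ (fun y => pM_tendsto τ hτ x y)
  have t2 : ∀ M : ℕ, ∫ y, pM τ (M + 1) x y ∂piS = 1 := by
    intro M
    rw [int_piS _ (pM_cont' τ (M + 1) x)]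
    simp_rw [slice_one]
    rw [sum_U]
    norm_num
  simp_rw [t2] at t1
  exact tendsto_nhds_unique t1 tendsto_const_nhds |>.trans rfl

/-- the transition density with values in `ℝ≥0∞` -/
noncomputable def PP (x y : St) : ℝ≥0∞ := ENNReal.ofReal (pk 1 x y)

lemma pk_int (τ : ℝ) (hτ : |τ| = 1) (x : St) : Integrable (fun y => pk τ x y) piS :=
  Integrable.of_bound (pk_meas' τ hτ x).aestronglyMeasurable 4
    (ae_of_all _ (fun y => abs_pk_le τ hτ x y))

lemma PP_meas : Measurable (Function.uncurry PP) :=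
  (pk_meas 1 (by simp)).ennreal_ofReal

lemma PP_one (x : St) : ∫⁻ y, PP x y ∂piS = 1 := by
  unfold PP
  rw [← ofReal_integral_eq_lintegral_ofReal (pk_int 1 (by simp) x)
    (ae_of_all _ (fun y => pk_nonneg 1 (by simp) x y)), int_one 1 (by simp) x]
  simp

lemma PP_two (y : St) : ∫⁻ x, PP x y ∂piS = 1 := by
  unfold PP
  simp_rw [pk_symm 1 _ y]
  rw [← ofReal_integral_eq_lintegral_ofReal (pk_int (-1) (by simp) y)
    (ae_of_all _ (fun x => pk_nonneg (-1) (by simp) y x)), int_one (-1) (by simp) y]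
  simp

lemma PP_three (x z : St) : ∫⁻ y, PP x y * PP y z ∂piS = 1 := by
  unfold PP
  simp_rw [pk_symm 1 _ z]
  have e : ∀ y, ENNReal.ofReal (pk 1 x y) * ENNReal.ofReal (pk (-1) z y)
      = ENNReal.ofReal (pk 1 x y * pk (-1) z y) := fun y =>
    (ENNReal.ofReal_mul (pk_nonneg 1 (by simp) x y)).symm
  simp_rw [e]
  rw [← ofReal_integral_eq_lintegral_ofReal, int_pp x z]
  · simp
  · refine Integrable.of_bound (C := 16) ((pk_meas' 1 (by simp) x).mul
      (pk_meas' (-1) (by simp) z)).aestronglyMeasurable (ae_of_all _ (fun y => ?_))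
    rw [Real.norm_eq_abs, abs_mul]
    have h1 := abs_pk_le 1 (by simp) x y
    have h2 := abs_pk_le (-1) (by simp) z y
    nlinarith [abs_nonneg (pk 1 x y), abs_nonneg (pk (-1) z y)]
  · exact ae_of_all _ (fun y => mul_nonneg (pk_nonneg 1 (by simp) x y) (pk_nonneg (-1) (by simp) z y))

lemma PP_same (x y : St) (h : x.1 = y.1) : PP x y = 0 := by
  unfold PP; rw [pk_same 1 x y h]; simp

end H282R3.MK
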